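import Pool.Agent.V5helper7.CM.CST1

/-!
# Project CM: job CST2 (basic invariants)
-/

namespace Pool.Agent.V5helper7.CM

open MvPolynomial Pool.Agent.V5helper32.CM

theorem HZ_pderiv {σ : Type} [Fintype σ] {w : σ → ℤ} {P : MvPolynomial σ ℂ} {z : ℤ}
    (hP : HZ w P z) (j : σ) : HZ w (pderiv j P) (z - w j) := by
  classical
  intro m hm
  rw [coeff_pderiv] at hm
  have h1 : coeff (m + Finsupp.single j 1) P ≠ 0 := left_ne_zero_of_mul hm
  have h2 := hP _ h1
  have h3 : ∑ i, (((m + Finsupp.single j 1 : σ →₀ ℕ) i : ℕ) : ℤ) * w i = ∑ i, (m i : ℤ) * w i + w j := by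
    have h4 : ∑ i, (((Finsupp.single j 1 : σ →₀ ℕ) i : ℕ) : ℤ) * w i = w j := by
      rw [Finset.sum_eq_single j]
      · simp
      · intro i _ hi
        rw [Finsupp.single_apply, if_neg (Ne.symm hi)]
        simp
      · intro h
        exact absurd (Finset.mem_univ j) h
    rw [← h4, ← Finset.sum_add_distrib]
    apply Finset.sum_congr rfl
    intro i _
    rw [Finsupp.add_apply]
    push_cast
    ring
  rw [h3] at h2
  linarith

theorem eq_C_of_pderiv {σ : Type} [Fintype σ] {P : MvPolynomial σ ℂ}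
    (hP : ∀ j, pderiv j P = 0) : P = C (coeff 0 P) := by
  classical
  ext m
  rw [coeff_C]
  split_ifs with h0
  · rw [h0]
  · have h1 : m ≠ 0 := Ne.symm h0
    obtain ⟨j, hj⟩ := Finsupp.ne_iff.1 h1
    rw [Finsupp.coe_zero, Pi.zero_apply] at hj
    have h2 := congrArg (coeff (m - Finsupp.single j 1)) (hP j)
    rw [coeff_pderiv, coeff_zero] at h2
    have h3 : m - Finsupp.single j 1 + Finsupp.single j 1 = m := by
      apply tsub_add_cancel_of_le
      rw [Finsupp.single_le_iff]
      omega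
    rw [h3] at h2
    rcases mul_eq_zero.1 h2 with h | h
    · exact h
    · exfalso
      have : ((((m - Finsupp.single j 1 : σ →₀ ℕ) j : ℕ) : ℂ) + 1) ≠ 0 := Nat.cast_add_one_ne_zero _
      exact this h

theorem pderiv_aeval {k n : ℕ} (f : Fin k → MvPolynomial (Fin n) ℂ) (l : Fin n)
    (P : MvPolynomial (Fin k) ℂ) :
    pderiv l (aeval f P) = ∑ j, aeval f (pderiv j P) * pderiv l (f j) := by
  classical
  induction P using MvPolynomial.induction_on with
  | C c =>
    have : aeval f (C c : MvPolynomial (Fin k) ℂ) = C c := aeval_C f c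
    rw [this, pderiv_C]
    symm
    apply Finset.sum_eq_zero
    intro j _
    rw [pderiv_C, map_zero, zero_mul]
  | add p q hp hq =>
    rw [map_add, map_add, hp, hq, ← Finset.sum_add_distrib]
    apply Finset.sum_congr rfl
    intro j _
    rw [map_add, map_add, add_mul]
  | mul_X p i hp =>
    rw [map_mul, aeval_X, pderiv_mul, hp, Finset.sum_mul]
    have h1 : ∀ j, aeval f (pderiv j (p * X i)) * pderiv l (f j) =
        aeval f (pderiv j p) * pderiv l (f j) * f i +
          if j = i then aeval f p * pderiv l (f j) else 0 := by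
      intro j
      rw [pderiv_mul, map_add, map_mul, map_mul, aeval_X, pderiv_X]
      by_cases hji : j = i
      · subst hji
        rw [Pi.single_eq_same, map_one, if_pos rfl]
        ring
      · rw [if_neg hji, Pi.single_eq_of_ne (Ne.symm hji), map_zero]
        ring
    rw [Finset.sum_congr rfl fun j _ => h1 j, Finset.sum_add_distrib]
    congr 1
    rw [Finset.sum_ite_eq' Finset.univ i, if_pos (Finset.mem_univ i)]

section

variable {n : ℕ} {W : Type} [Group W] [Fintype W] (D : Rd n W)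

/-- Homogeneous invariants of positive degree which are eigenvectors of `t`. -/
def Good (h : MvPolynomial (Fin n) ℂ) : Prop :=
  IsInv D h ∧ (∃ e, 0 < e ∧ h.IsHomogeneous e) ∧ ∃ ζ : ℂ, act D.t h = ζ • h

theorem inv_act_t {h : MvPolynomial (Fin n) ℂ} (hh : IsInv D h) : IsInv D (act D.t h) := by
  intro w
  have h1 := D.tρ (D.θ.symm w)
  rw [MulEquiv.apply_symm_apply] at h1
  rw [h1, ← act_mul]
  have h2 : D.t * D.ρ (D.θ.symm w) * D.t⁻¹ * D.t = D.t * D.ρ (D.θ.symm w) := by group
  rw [h2, act_mul, hh]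

theorem inv_act_t_pow {h : MvPolynomial (Fin n) ℂ} (hh : IsInv D h) (k : ℕ) :
    IsInv D (act (D.t ^ k) h) := by
  induction k with
  | zero =>
    rw [pow_zero, act_one]
    exact hh
  | succ k ih =>
    rw [pow_succ', act_mul]
    exact inv_act_t D ih

/-- Every homogeneous invariant of positive degree is a sum of `t`-eigenvectors. -/
theorem mem_span_good {h : MvPolynomial (Fin n) ℂ} (hh : IsInv D h) {e : ℕ} (he : 0 < e)
    (hom : h.IsHomogeneous e) : h ∈ Ideal.span {p | Good D p} := by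
  have hm := D.mpos
  set ω : ℂ := Complex.exp (2 * Real.pi * Complex.I / D.m) with hω
  have hprim : IsPrimitiveRoot ω D.m := Complex.isPrimitiveRoot_exp D.m hm.ne'
  have hω0 : ω ≠ 0 := hprim.ne_zero hm.ne'
  -- the components
  let g : ℕ → MvPolynomial (Fin n) ℂ := fun j =>
    ∑ k ∈ Finset.range D.m, ((ω ^ j)⁻¹) ^ k • act (D.t ^ k) h
  have hg : ∀ j, Good D (g j) := by
    intro j
    refine ⟨inv_sum D _ fun k _ => inv_smul D _ (inv_act_t_pow D hh k), ⟨e, he, ?_⟩, ω ^ j, ?_⟩
    · rw [← HZ_iff]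
      exact HZ.sum _ fun k _ => (HZ_act _ ((HZ_iff _ _).2 hom)).smul _
    · have hx : ω ^ j ≠ 0 := pow_ne_zero _ hω0
      have h1 : act D.t (g j) =
          ω ^ j • ∑ k ∈ Finset.range D.m, ((ω ^ j)⁻¹) ^ (k + 1) • act (D.t ^ (k + 1)) h := by
        show act D.t (∑ k ∈ Finset.range D.m, ((ω ^ j)⁻¹) ^ k • act (D.t ^ k) h) = _
        rw [map_sum, Finset.smul_sum]
        apply Finset.sum_congr rfl
        intro k _
        rw [map_smul, pow_succ' D.t, act_mul, smul_smul, pow_succ' ((ω ^ j)⁻¹), ← mul_assoc,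
          mul_inv_cancel₀ hx, one_mul]
      rw [h1]
      refine congrArg (fun x => ω ^ j • x) ?_
      have h2 := Finset.sum_range_succ' (fun k => ((ω ^ j)⁻¹) ^ k • act (D.t ^ k) h) D.m
      rw [Finset.sum_range_succ] at h2
      have h3 : ((ω ^ j)⁻¹) ^ D.m • act (D.t ^ D.m) h = ((ω ^ j)⁻¹) ^ 0 • act (D.t ^ 0) h := by
        rw [D.tm, pow_zero, pow_zero, ← inv_pow, ← pow_mul, mul_comm j, pow_mul, inv_pow,
          hprim.pow_eq_one, inv_one, one_pow]
      rw [h3] at h2
      exact (add_right_cancel h2).symm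
  have hsum : ∑ j ∈ Finset.range D.m, g j = (D.m : ℂ) • h := by
    show ∑ j ∈ Finset.range D.m, ∑ k ∈ Finset.range D.m, ((ω ^ j)⁻¹) ^ k • act (D.t ^ k) h = _
    rw [Finset.sum_comm]
    simp_rw [← Finset.sum_smul]
    rw [Finset.sum_eq_single 0]
    · rw [pow_zero, act_one]
      simp only [pow_zero, Finset.sum_const, Finset.card_range, nsmul_eq_mul, mul_one]
    · intro k hk hk0
      rw [Finset.mem_range] at hk
      have h4 : ∀ j ∈ Finset.range D.m, ((ω ^ j)⁻¹) ^ k = ((ω ^ k)⁻¹) ^ j := by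
        intro j _
        rw [inv_pow, inv_pow, ← pow_mul, ← pow_mul, mul_comm]
      rw [Finset.sum_congr rfl h4]
      have h5 : (ω ^ k)⁻¹ ≠ 1 := by
        intro h6
        have h7 : ω ^ k = 1 := by
          rw [← inv_inv (ω ^ k), h6, inv_one]
        have h8 := (hprim.pow_eq_one_iff_dvd k).1 h7
        have := Nat.le_of_dvd (Nat.pos_of_ne_zero hk0) h8
        omega
      rw [geom_sum_eq h5, inv_pow, ← pow_mul, mul_comm k, pow_mul, hprim.pow_eq_one, one_pow,
        inv_one, sub_self, zero_div, zero_smul]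
    · intro h0
      exact absurd (Finset.mem_range.2 hm) h0
  have h9 : h = C ((D.m : ℂ)⁻¹) * ∑ j ∈ Finset.range D.m, g j := by
    rw [hsum, ← smul_eq_C_mul, smul_smul, inv_mul_cancel₀, one_smul]
    exact Nat.cast_ne_zero.2 hm.ne'
  rw [h9]
  exact Ideal.mul_mem_left _ _ (Ideal.sum_mem _ fun j _ => Ideal.subset_span (hg j))

theorem hilb_eq_span_good : hilb D = Ideal.span {p | Good D p} := by
  apply le_antisymm
  · unfold hilb
    rw [Ideal.span_le]
    rintro h ⟨hi, e, he, hom⟩
    exact mem_span_good D hi he hom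
  · rw [Ideal.span_le]
    rintro h ⟨hi, ⟨e, he, hom⟩, _⟩
    exact Ideal.subset_span ⟨hi, e, he, hom⟩

theorem exists_gen : ∃ k, ∃ f : Fin k → MvPolynomial (Fin n) ℂ,
    (∀ i, Good D (f i)) ∧ Ideal.span (Set.range f) = hilb D := by
  have h1 : (hilb D).FG := IsNoetherian.noetherian _
  rw [hilb_eq_span_good] at h1
  obtain ⟨s, hs, hs'⟩ := (Submodule.fg_span_iff_fg_span_finset_subset _).1 h1
  refine ⟨s.card, fun i => (s.equivFin.symm i : MvPolynomial (Fin n) ℂ), ?_, ?_⟩
  · intro i
    exact hs (s.equivFin.symm i).2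
  · rw [hilb_eq_span_good]
    have h2 : Set.range (fun i => (s.equivFin.symm i : MvPolynomial (Fin n) ℂ)) =
        (s : Set (MvPolynomial (Fin n) ℂ)) := by
      ext x
      constructor
      · rintro ⟨i, rfl⟩
        exact (s.equivFin.symm i).2
      · intro hx
        exact ⟨s.equivFin ⟨x, hx⟩, by simp⟩
    rw [h2]
    exact hs'.symm

/-- A generating family of homogeneous invariants of positive degree generates the invariants. -/
theorem gen_inv {k : ℕ} (f : Fin k → MvPolynomial (Fin n) ℂ) (d : Fin k → ℕ)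
    (hd : ∀ i, 0 < d i) (hom : ∀ i, HZ (o n) (f i) (d i)) (hi : ∀ i, IsInv D (f i))
    (hs : Ideal.span (Set.range f) = hilb D) (h : MvPolynomial (Fin n) ℂ) (hh : IsInv D h) :
    ∃ q : MvPolynomial (Fin k) ℂ, h = aeval f q := by
  have key : ∀ (e : ℕ) (h : MvPolynomial (Fin n) ℂ), HZ (o n) h e → IsInv D h →
      h ∈ (aeval (R := ℂ) f).range := by
    intro e
    induction e using Nat.strong_induction_on with
    | _ e ih =>
      intro h he hh
      by_cases he0 : e = 0
      · subst he0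
        obtain ⟨c, hc⟩ := HZ_C (by exact_mod_cast he)
        rw [hc]
        exact ⟨C c, aeval_C f c⟩
      · have h1 : h ∈ Ideal.span (Set.range f) := by
          rw [hs]
          exact mem_hilb D hh he (by exact_mod_cast he0)
        obtain ⟨u, hu⟩ := (Ideal.mem_span_range_iff_exists_fun).1 h1
        have h2 : h = ∑ i, av D (cz (o n) (e - d i) (u i)) * f i := by
          have h3 := congrArg (fun x => av D (cz (o n) (e : ℤ) x)) hu
          simp only [map_sum] at h3
          rw [cz_of_HZ he, av_of_inv D hh] at h3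
          rw [← h3]
          apply Finset.sum_congr rfl
          intro i _
          rw [cz_mul _ _ (hom i), av_mul' D (hi i)]
        rw [h2]
        apply Subalgebra.sum_mem
        intro i _
        apply Subalgebra.mul_mem
        · have h4 : HZ (o n) (av D (cz (o n) (e - d i) (u i))) (e - d i) :=
            av_HZ D (cz_HZ _ _ _)
          by_cases h5 : (e : ℤ) - d i < 0
          · rw [h4.eq_zero (by intro i; simp [o]) h5]
            exact Subalgebra.zero_mem _
          · have h6 : (e : ℤ) - d i = ((e - d i : ℕ) : ℤ) := by omega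
            rw [h6] at h4 ⊢
            exact ih (e - d i) (by have := hd i; omega) _ h4 (av_inv D _)
        · exact ⟨X i, aeval_X f i⟩
  have h1 : h ∈ Subalgebra.toSubmodule (aeval (R := ℂ) f).range := by
    apply mem_of_cz (w := o n)
    intro z
    by_cases hz : z < 0
    · rw [(cz_HZ (o n) z h).eq_zero (by intro i; simp [o]) hz]
      exact Submodule.zero_mem _
    · have h2 : z = (z.toNat : ℤ) := by omega
      have h3 := cz_HZ (o n) z h
      rw [h2] at h3 ⊢
      exact key _ _ h3 (inv_cz D hh _)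
  obtain ⟨q, hq⟩ := h1
  exact ⟨q, hq.symm⟩

/-- The family `f` minus an element which is in the ideal of the others. -/
theorem not_minimal {k : ℕ} (f : Fin (k + 1) → MvPolynomial (Fin n) ℂ) (i : Fin (k + 1))
    (h : f i ∈ Ideal.span (Set.range fun j => f (i.succAbove j))) :
    Ideal.span (Set.range fun j => f (i.succAbove j)) = Ideal.span (Set.range f) := by
  apply le_antisymm
  · apply Ideal.span_mono
    rintro _ ⟨j, rfl⟩
    exact ⟨_, rfl⟩
  · rw [Ideal.span_le]
    rintro _ ⟨j, rfl⟩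
    by_cases hj : j = i
    · rw [hj]
      exact h
    · obtain ⟨l, hl⟩ := Fin.exists_succAbove_eq hj
      rw [← hl]
      exact Ideal.subset_span ⟨l, rfl⟩

/-- Algebraic independence of a minimal system of generators. -/
theorem indep {k : ℕ} (f : Fin k → MvPolynomial (Fin n) ℂ) (d : Fin k → ℕ)
    (hd : ∀ i, 0 < d i) (hom : ∀ i, HZ (o n) (f i) (d i)) (hi : ∀ i, IsInv D (f i))
    (hs : Ideal.span (Set.range f) = hilb D)
    (hmin : ∀ i, f i ∉ Ideal.span (f '' {j | j ≠ i})) : AlgebraicIndependent ℂ f := by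
  classical
  rw [algebraicIndependent_iff]
  by_contra hcon
  push Not at hcon
  -- minimal weighted degree
  set w : Fin k → ℤ := fun i => (d i : ℤ) with hw
  have hex : ∃ e : ℕ, ∃ P : MvPolynomial (Fin k) ℂ, P ≠ 0 ∧ HZ w P e ∧ aeval f P = 0 := by
    obtain ⟨P, hP, hP0⟩ := hcon
    have h1 : ∃ z, cz w z P ≠ 0 := by
      by_contra h2
      push Not at h2
      exact hP0 (eq_zero_of_cz h2)
    obtain ⟨z, hz⟩ := h1
    have h2 : ¬ z < 0 := by
      intro h3
      exact hz ((cz_HZ w z P).eq_zero (fun i => Int.natCast_nonneg _) h3)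
    refine ⟨z.toNat, cz w z P, hz, ?_, ?_⟩
    · rw [show ((z.toNat : ℕ) : ℤ) = z by omega]
      exact cz_HZ w z P
    · rw [← cz_aeval (w := w) f hom, hP, map_zero]
  obtain ⟨P, hP0, hPe, hPf⟩ := Nat.find_spec hex
  have hmin' := fun e' (he' : e' < Nat.find hex) => Nat.find_min hex he'
  generalize Nat.find hex = e at hPe hmin'
  have hinv : ∀ Q : MvPolynomial (Fin k) ℂ, IsInv D (aeval f Q) := by
    intro Q u
    have : (act (D.ρ u)).comp (aeval f) = aeval f := by
      apply MvPolynomial.algHom_ext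
      intro i
      rw [AlgHom.comp_apply, aeval_X, hi i u]
    rw [← AlgHom.comp_apply, this]
  set G : Fin k → MvPolynomial (Fin n) ℂ := fun j => aeval f (pderiv j P) with hG
  have hGinv : ∀ j, IsInv D (G j) := fun j => hinv _
  have hGdeg : ∀ j, HZ (o n) (G j) (e - d j) := fun j => HZ_aeval f hom (HZ_pderiv hPe j)
  have hGne : ∃ j, G j ≠ 0 := by
    by_contra h1
    push Not at h1
    have h2 : ∀ j, pderiv j P = 0 := by
      intro j
      by_contra h3
      have h4 := HZ_pderiv hPe j
      have h5 : ¬ (e : ℤ) - w j < 0 := fun h6 =>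
        h3 (h4.eq_zero (fun i => Int.natCast_nonneg _) h6)
      have h7 : (e : ℤ) - w j = ((e - d j : ℕ) : ℤ) := by
        simp only [hw] at h5 ⊢
        omega
      rw [h7] at h4
      refine hmin' (e - d j) ?_ ⟨pderiv j P, h3, h4, h1 j⟩
      have := hd j
      simp only [hw] at h5
      omega
    have h3 := eq_C_of_pderiv h2
    rw [h3] at hPf
    have h4 : aeval f (C (coeff 0 P) : MvPolynomial (Fin k) ℂ) = C (coeff 0 P) := aeval_C f _
    rw [h4] at hPf
    apply hP0
    rw [h3, C_eq_zero.1 hPf, map_zero]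
  have hrel : ∀ l, ∑ j, G j * pderiv l (f j) = 0 := by
    intro l
    rw [← pderiv_aeval, hPf, map_zero]
  -- a minimal set of generators of the ideal of the `G j`
  have hA : ∃ a : ℕ, ∃ A : Finset (Fin k), A.card = a ∧
      ∀ j, ∃ γ : Fin k → MvPolynomial (Fin n) ℂ, (∀ i, IsInv D (γ i)) ∧
        G j = ∑ i ∈ A, γ i * G i := by
    refine ⟨_, Finset.univ, rfl, fun j => ⟨fun i => if i = j then 1 else 0, ?_, ?_⟩⟩
    · intro i
      show IsInv D (if i = j then 1 else 0)
      split_ifs
      · exact inv_C D 1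
      · exact inv_zero D
    · simp
  obtain ⟨A, hAc, hAγ⟩ := Nat.find_spec hA
  have hAmin : ∀ i ∈ A, ¬ ∃ q : Fin k → MvPolynomial (Fin n) ℂ, (∀ j, IsInv D (q j)) ∧
      G i = ∑ j ∈ A.erase i, q j * G j := by
    rintro i hiA ⟨q, hq, hqi⟩
    have h1 : (A.erase i).card < Nat.find hA := by
      rw [← hAc]
      exact Finset.card_erase_lt_of_mem hiA
    apply Nat.find_min hA h1
    refine ⟨_, rfl, fun j => ?_⟩
    obtain ⟨γ, hγ, hγj⟩ := hAγ j
    refine ⟨fun l => γ i * q l + γ l, fun l => inv_add D (inv_mul D (hγ i) (hq l)) (hγ l), ?_⟩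
    rw [hγj, ← Finset.add_sum_erase A _ hiA, hqi, Finset.mul_sum, ← Finset.sum_add_distrib]
    apply Finset.sum_congr rfl
    intro l _
    ring
  have hAne : A.Nonempty := by
    rw [Finset.nonempty_iff_ne_empty]
    intro h1
    obtain ⟨j, hj⟩ := hGne
    obtain ⟨γ, _, hγj⟩ := hAγ j
    rw [h1, Finset.sum_empty] at hγj
    exact hj hγj
  choose γ' hγ'inv hγ' using hAγ
  set γ : Fin k → Fin k → MvPolynomial (Fin n) ℂ := fun j i =>
    if j ∈ A then (if i = j then 1 else 0) else cz (o n) (d i - d j) (γ' j i) with hγ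
  have hγdeg : ∀ j i, HZ (o n) (γ j i) (d i - d j) := by
    intro j i
    simp only [hγ]
    split_ifs with h1 h2
    · rw [h2, sub_self]
      exact HZ.one _
    · exact HZ.zero _ _
    · exact cz_HZ _ _ _
  have hγG : ∀ j, G j = ∑ i ∈ A, γ j i * G i := by
    intro j
    by_cases h1 : j ∈ A
    · simp only [hγ, if_pos h1, ite_mul, one_mul, zero_mul]
      rw [Finset.sum_ite_eq' A j, if_pos h1]
    · simp only [hγ, if_neg h1]
      have h2 := congrArg (cz (o n) ((e : ℤ) - d j)) (hγ' j)
      rw [cz_of_HZ (hGdeg j), map_sum] at h2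
      refine h2.trans (Finset.sum_congr rfl fun i _ => ?_)
      rw [cz_mul _ _ (hGdeg i)]
      congr 3
      ring
  obtain ⟨i, hiA⟩ := hAne
  have hγii : γ i i = 1 := by
    simp only [hγ, if_pos hiA, if_true]
  set p : Fin k → Fin n → MvPolynomial (Fin n) ℂ := fun i l => ∑ j, γ j i * pderiv l (f j) with hp
  have hpdeg : ∀ i l, HZ (o n) (p i l) (d i - 1) := by
    intro i l
    apply HZ.sum
    intro j _
    have := (hγdeg j i).mul (HZ_pderiv (hom j) l)
    have h2 : (d i : ℤ) - d j + (d j - o n l) = d i - 1 := by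
      simp only [o]
      ring
    rwa [h2] at this
  have hprel : ∀ l, ∑ i ∈ A, G i * p i l = 0 := by
    intro l
    rw [← hrel l]
    simp only [hp, Finset.mul_sum]
    rw [Finset.sum_comm]
    apply Finset.sum_congr rfl
    intro j _
    rw [hγG j, Finset.sum_mul]
    apply Finset.sum_congr rfl
    intro i _
    ring
  have hpmem : ∀ l, p i l ∈ hilb D := by
    intro l
    have h1 : (d i : ℤ) - 1 = ((d i - 1 : ℕ) : ℤ) := by
      have := hd i
      omega
    refine chevalley D A i hiA G hGinv (hAmin i hiA) (d i - 1) (fun i => p i l) ?_ (hprel l)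
    rw [← h1]
    exact hpdeg i l
  have hpmem' : ∀ l, ∃ u : Fin k → MvPolynomial (Fin n) ℂ,
      p i l = ∑ m, cz (o n) (d i - 1 - d m) (u m) * f m := by
    intro l
    have h1 := hpmem l
    rw [← hs] at h1
    obtain ⟨u, hu⟩ := (Ideal.mem_span_range_iff_exists_fun).1 h1
    refine ⟨u, ?_⟩
    have h2 := congrArg (cz (o n) ((d i : ℤ) - 1)) hu
    rw [cz_of_HZ (hpdeg i l), map_sum] at h2
    rw [← h2]
    apply Finset.sum_congr rfl
    intro m _
    rw [cz_mul _ _ (hom m)]
  choose u hu using hpmem'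
  -- Euler
  have hE : ∑ l, X l * p i l = ∑ j, (d j : ℂ) • (γ j i * f j) := by
    simp only [hp, Finset.mul_sum]
    rw [Finset.sum_comm]
    apply Finset.sum_congr rfl
    intro j _
    have h1 := ((HZ_iff _ _).1 (hom j)).sum_X_mul_pderiv
    rw [← Nat.cast_smul_eq_nsmul ℂ] at h1
    rw [← mul_smul_comm, ← h1, Finset.mul_sum]
    apply Finset.sum_congr rfl
    intro l _
    ring
  have hE2 : ∑ l, X l * p i l = ∑ m, (∑ l, X l * cz (o n) (d i - 1 - d m) (u l m)) * f m := by
    simp_rw [Finset.sum_mul]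
    rw [Finset.sum_comm]
    apply Finset.sum_congr rfl
    intro l _
    rw [hu l, Finset.mul_sum]
    apply Finset.sum_congr rfl
    intro m _
    ring
  have hbi : ∑ l, X l * cz (o n) ((d i : ℤ) - 1 - d i) (u l i) = 0 := by
    apply Finset.sum_eq_zero
    intro l _
    rw [(cz_HZ (o n) ((d i : ℤ) - 1 - d i) (u l i)).eq_zero (by intro i; simp [o]) (by omega),
      mul_zero]
  rw [hE] at hE2
  rw [← Finset.add_sum_erase Finset.univ _ (Finset.mem_univ i),
    ← Finset.add_sum_erase Finset.univ (fun m => (∑ l, X l * cz (o n) (d i - 1 - d m) (u l m)) *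
      f m) (Finset.mem_univ i), hbi, zero_mul, zero_add, hγii, one_mul] at hE2
  apply hmin i
  have h1 : f i = C ((d i : ℂ)⁻¹) * ((d i : ℂ) • f i) := by
    rw [← smul_eq_C_mul, smul_smul, inv_mul_cancel₀, one_smul]
    exact Nat.cast_ne_zero.2 (hd i).ne'
  rw [h1]
  apply Ideal.mul_mem_left
  rw [eq_sub_of_add_eq hE2]
  have hmem : ∀ j ∈ Finset.univ.erase i, f j ∈ Ideal.span (f '' {j | j ≠ i}) := by
    intro j hj
    exact Ideal.subset_span ⟨j, (Finset.mem_erase.1 hj).1, rfl⟩
  apply Ideal.sub_mem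
  · exact Ideal.sum_mem _ fun j hj => Ideal.mul_mem_left _ _ (hmem j hj)
  · refine Ideal.sum_mem _ fun j hj => ?_
    rw [smul_eq_C_mul]
    exact Ideal.mul_mem_left _ _ (Ideal.mul_mem_left _ _ (hmem j hj))

theorem bas_exists : ∃ k, Nonempty (Bas D k) := by
  classical
  have hex := exists_gen D
  obtain ⟨f, hf, hs⟩ := Nat.find_spec hex
  have hmin := fun k' (hk' : k' < Nat.find hex) => Nat.find_min hex hk'
  generalize Nat.find hex = k at f hf hs hmin
  refine ⟨k, ?_⟩
  choose hinv hdeg heig using hf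
  choose d hd hom using hdeg
  choose ζ hζ using heig
  have hom' : ∀ i, HZ (o n) (f i) (d i) := fun i => (HZ_iff _ _).2 (hom i)
  refine ⟨⟨f, d, ζ, hom, hd, hinv, hζ, gen_inv D f d hd hom' hinv hs, ?_, hs.symm⟩⟩
  apply indep D f d hd hom' hinv hs
  intro i hi
  obtain _ | k := k
  · exact i.elim0
  · have h1 : f '' {j | j ≠ i} = Set.range fun j => f (i.succAbove j) := by
      ext x
      constructor
      · rintro ⟨j, hj, rfl⟩
        obtain ⟨l, hl⟩ := Fin.exists_succAbove_eq hj
        exact ⟨l, congrArg f hl⟩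
      · rintro ⟨j, rfl⟩
        exact ⟨_, Fin.succAbove_ne i j, rfl⟩
    rw [h1] at hi
    refine hmin k (Nat.lt_succ_self k) ⟨fun j => f (i.succAbove j), fun j =>
      ⟨hinv _, ⟨_, hd _, hom _⟩, _, hζ _⟩, ?_⟩
    rw [not_minimal f i hi, hs]

end

theorem t_CST2' : S_CST2 := by
  intro n W _ _ D
  exact bas_exists D

theorem t_CST2 (_ : S_CST1) : S_CST2 := t_CST2'

end Pool.Agent.V5helper7.CM
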