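import Pool.Agent.V5helper7.CM.CST1

/-!
# Project CM: job CST3 (freeness over the invariants)
-/

namespace Pool.Agent.V5helper7.CM

open MvPolynomial Pool.Agent.V5helper32.CM

section

variable {n : ℕ} {W : Type} [Group W] [Fintype W] (D : Rd n W)

theorem HZ_coeff_prod {ι : Type} (s : Finset ι) (y : ι → MvPolynomial (Fin n) ℂ)
    (hy : ∀ i, HZ (o n) (y i) 1) (k : ℕ) :
    HZ (o n) ((∏ i ∈ s, (Polynomial.X - Polynomial.C (y i))).coeff k) (s.card - k) := by
  classical
  induction s using Finset.induction_on generalizing k with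
  | empty =>
    rw [Finset.prod_empty, Polynomial.coeff_one]
    split_ifs with h0
    · subst h0
      simpa using HZ.one (o n)
    · exact HZ.zero _ _
  | insert a s ha ih =>
    rw [Finset.prod_insert ha, Finset.card_insert_of_notMem ha, sub_mul, Polynomial.coeff_sub,
      Polynomial.coeff_C_mul]
    apply HZ.sub
    · obtain _ | k := k
      · rw [Polynomial.coeff_X_mul_zero]
        exact HZ.zero _ _
      · rw [Polynomial.coeff_X_mul]
        have := ih k
        convert this using 1
        push_cast
        ring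
    · have := (hy a).mul (ih k)
      convert this using 1
      push_cast
      ring

/-- A power of every variable is in the Hilbert ideal. -/
theorem X_pow_mem (i : Fin n) : (X i : MvPolynomial (Fin n) ℂ) ^ Fintype.card W ∈ hilb D := by
  classical
  set y : W → MvPolynomial (Fin n) ℂ := fun w => act (D.ρ w) (X i) with hy
  set Q : Polynomial (MvPolynomial (Fin n) ℂ) :=
    ∏ w : W, (Polynomial.X - Polynomial.C (y w)) with hQ
  have h1 : Q.eval (X i) = 0 := by
    rw [hQ, Polynomial.eval_prod]
    apply Finset.prod_eq_zero (Finset.mem_univ 1)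
    rw [Polynomial.eval_sub, Polynomial.eval_X, Polynomial.eval_C]
    simp only [hy, map_one, act_one, sub_self]
  have hmon : Q.Monic := Polynomial.monic_prod_of_monic _ _ fun w _ => Polynomial.monic_X_sub_C _
  have hdeg : Q.natDegree = Fintype.card W := by
    rw [hQ, Polynomial.natDegree_prod_of_monic _ _ fun w _ => Polynomial.monic_X_sub_C _]
    simp
  have hinv : ∀ k, IsInv D (Q.coeff k) := by
    intro k u
    have h2 : Q.map (act (D.ρ u)).toRingHom = Q := by
      rw [hQ, Polynomial.map_prod]
      refine Fintype.prod_equiv (Equiv.mulLeft u) _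
        (fun w => Polynomial.X - Polynomial.C (y w)) ?_
      intro w
      have h3 : (act (D.ρ u)).toRingHom (y w) = y (u * w) := by
        show act (D.ρ u) (act (D.ρ w) (X i)) = act (D.ρ (u * w)) (X i)
        rw [map_mul, act_mul]
      rw [Polynomial.map_sub, Polynomial.map_X, Polynomial.map_C, h3]
      rfl
    have h3 := congrArg (fun q => Polynomial.coeff q k) h2
    simp only [Polynomial.coeff_map] at h3
    exact h3
  have hHZ : ∀ k, HZ (o n) (Q.coeff k) (Fintype.card W - k) := by
    intro k
    have := HZ_coeff_prod Finset.univ y (fun w => HZ_act_X _ i) k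
    rwa [Finset.card_univ] at this
  rw [Polynomial.eval_eq_sum_range, hdeg, Finset.sum_range_succ] at h1
  have h4 : Q.coeff (Fintype.card W) = 1 := by
    rw [← hdeg]
    exact hmon
  rw [h4, one_mul] at h1
  rw [eq_neg_of_add_eq_zero_right h1]
  apply (Ideal.neg_mem_iff _).2
  apply Ideal.sum_mem
  intro k hk
  rw [Finset.mem_range] at hk
  exact Ideal.mul_mem_right _ _ (mem_hilb D (hinv k) (hHZ k) (by omega))

theorem exists_span : ∃ N, ∃ c : Fin N → MvPolynomial (Fin n) ℂ,
    (∀ j, ∃ e : ℕ, HZ (o n) (c j) e) ∧
      ∀ h, ∃ a : Fin N → ℂ, h - ∑ j, a j • c j ∈ hilb D := by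
  classical
  let ι := Fin n → Fin (Fintype.card W)
  let c' : ι → MvPolynomial (Fin n) ℂ := fun φ =>
    monomial (Finsupp.equivFunOnFinite.symm (fun i => (φ i : ℕ))) 1
  let eq := Fintype.equivFin ι
  refine ⟨Fintype.card ι, fun j => c' (eq.symm j), ?_, ?_⟩
  · intro j
    refine ⟨(∑ i, ((eq.symm j) i : ℕ)), ?_⟩
    have := HZ_monomial (o n) (Finsupp.equivFunOnFinite.symm (fun i => ((eq.symm j) i : ℕ))) 1
    convert this using 1
    push_cast
    simp [o]
  · intro h
    induction h using MvPolynomial.induction_on' with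
    | monomial m a =>
      by_cases hm : ∀ i, m i < Fintype.card W
      · refine ⟨fun j => if eq.symm j = (fun i => ⟨m i, hm i⟩) then a else 0, ?_⟩
        have h1 : ∑ j, (if eq.symm j = (fun i => ⟨m i, hm i⟩) then a else 0) • c' (eq.symm j) =
            monomial m a := by
          rw [Finset.sum_eq_single (eq fun i => ⟨m i, hm i⟩)]
          · rw [Equiv.symm_apply_apply, if_pos rfl]
            show a • monomial _ (1 : ℂ) = _
            rw [smul_monomial, smul_eq_mul, mul_one]
            have h5 : Finsupp.equivFunOnFinite.symm (fun i => m i) = m := by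
              ext i
              rfl
            show monomial (Finsupp.equivFunOnFinite.symm (fun i => m i)) a = _
            rw [h5]
          · intro j _ hj
            rw [if_neg, zero_smul]
            intro h2
            apply hj
            rw [← h2, Equiv.apply_symm_apply]
          · intro h2
            exact absurd (Finset.mem_univ _) h2
        rw [h1, sub_self]
        exact Ideal.zero_mem _
      · push Not at hm
        obtain ⟨i, hi⟩ := hm
        refine ⟨0, ?_⟩
        have h1 : ∑ j, (0 : Fin (Fintype.card ι) → ℂ) j • c' (eq.symm j) = 0 := by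
          apply Finset.sum_eq_zero
          intro j _
          rw [Pi.zero_apply, zero_smul]
        rw [h1, sub_zero]
        have h2 : (monomial m a : MvPolynomial (Fin n) ℂ) =
            monomial (m - Finsupp.single i (Fintype.card W)) a * X i ^ Fintype.card W := by
          rw [X_pow_eq_monomial, monomial_mul, mul_one]
          congr 1
          rw [tsub_add_cancel_of_le]
          rw [Finsupp.single_le_iff]
          exact hi
        rw [h2]
        exact Ideal.mul_mem_left _ _ (X_pow_mem D i)
    | add p q hp hq =>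
      obtain ⟨a, ha⟩ := hp
      obtain ⟨b, hb⟩ := hq
      refine ⟨a + b, ?_⟩
      have : p + q - ∑ j, (a + b) j • c' (eq.symm j) =
          (p - ∑ j, a j • c' (eq.symm j)) + (q - ∑ j, b j • c' (eq.symm j)) := by
        simp_rw [Pi.add_apply, add_smul]
        rw [Finset.sum_add_distrib]
        ring
      rw [this]
      exact Ideal.add_mem _ ha hb

/-- A homogeneous basis modulo the Hilbert ideal. -/
theorem exists_basis : ∃ N, ∃ c : Fin N → MvPolynomial (Fin n) ℂ,
    (∀ j, ∃ e : ℕ, HZ (o n) (c j) e) ∧
      (∀ h, ∃ a : Fin N → ℂ, h - ∑ j, a j • c j ∈ hilb D) ∧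
      ∀ a : Fin N → ℂ, ∑ j, a j • c j ∈ hilb D → a = 0 := by
  classical
  have hex := exists_span D
  obtain ⟨c, hc, hs⟩ := Nat.find_spec hex
  have hmin := fun k' (hk' : k' < Nat.find hex) => Nat.find_min hex hk'
  generalize Nat.find hex = N at c hc hs hmin
  refine ⟨N, c, hc, hs, ?_⟩
  intro a ha
  by_contra h0
  obtain ⟨i, hi⟩ := Function.ne_iff.1 h0
  rw [Pi.zero_apply] at hi
  obtain _ | N := N
  · exact i.elim0
  refine hmin N (Nat.lt_succ_self N) ⟨fun j => c (i.succAbove j), fun j => hc _, ?_⟩
  intro h
  obtain ⟨b, hb⟩ := hs h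
  refine ⟨fun j => b (i.succAbove j) - b i * (a i)⁻¹ * a (i.succAbove j), ?_⟩
  rw [Fin.sum_univ_succAbove _ i] at hb ha
  have h1 : h - ∑ j, (b (i.succAbove j) - b i * (a i)⁻¹ * a (i.succAbove j)) • c (i.succAbove j) =
      (h - (b i • c i + ∑ j, b (i.succAbove j) • c (i.succAbove j))) +
        C (b i * (a i)⁻¹) * (a i • c i + ∑ j, a (i.succAbove j) • c (i.succAbove j)) := by
    rw [← smul_eq_C_mul, smul_add, smul_smul, inv_mul_cancel_right₀ hi, Finset.smul_sum]
    simp_rw [sub_smul, smul_smul]
    rw [Finset.sum_sub_distrib]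
    ring
  rw [h1]
  exact Ideal.add_mem _ hb (Ideal.mul_mem_left _ _ ha)

/-- Independence over the ring of invariants, homogeneous coefficients. -/
theorem indep_hom : ∀ (N : ℕ) (δ : Fin N → ℤ) (c : Fin N → MvPolynomial (Fin n) ℂ)
    (_ : ∀ j, HZ (o n) (c j) (δ j))
    (_ : ∀ a : Fin N → ℂ, ∑ j, a j • c j ∈ hilb D → a = 0)
    (r : Fin N → MvPolynomial (Fin n) ℂ) (_ : ∀ j, IsInv D (r j)) (z : ℤ)
    (_ : ∀ j, HZ (o n) (r j) (z - δ j)), ∑ j, r j * c j = 0 → ∀ j, r j = 0 := by
  classical
  intro N
  induction N with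
  | zero =>
    intro _ _ _ _ _ _ _ _ _ j
    exact j.elim0
  | succ N ih =>
    intro δ c hc hli r hr z hrz hs
    have hc0 : c 0 ∉ hilb D := by
      intro h1
      have h2 := hli (Pi.single 0 1) (by
        rw [Finset.sum_eq_single 0]
        · rw [Pi.single_eq_same, one_smul]
          exact h1
        · intro j _ hj
          rw [Pi.single_eq_of_ne hj, zero_smul]
        · intro h
          exact absurd (Finset.mem_univ _) h)
      have h3 := congrFun h2 0
      rw [Pi.single_eq_same] at h3
      exact one_ne_zero h3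
    have hδ0 : ¬ δ 0 < 0 := by
      intro h1
      rw [(hc 0).eq_zero (by intro i; simp [o]) h1] at hc0
      exact hc0 (Ideal.zero_mem _)
    have hq : ∃ q : Fin (N + 1) → MvPolynomial (Fin n) ℂ, (∀ j, IsInv D (q j)) ∧
        r 0 = ∑ j ∈ Finset.univ.erase 0, q j * r j := by
      by_contra h1
      apply hc0
      refine chevalley D Finset.univ 0 (Finset.mem_univ _) r hr h1 (δ 0).toNat c ?_ hs
      rw [show (((δ 0).toNat : ℕ) : ℤ) = δ 0 by omega]
      exact hc 0
    obtain ⟨q, hq, hqr⟩ := hq
    have hqr' : r 0 = ∑ j : Fin N, q j.succ * r j.succ := by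
      rw [hqr]
      have h1 := Fin.sum_univ_succ fun j => q j * r j
      have h2 := Finset.add_sum_erase Finset.univ (fun j => q j * r j) (Finset.mem_univ 0)
      rw [← h2] at h1
      exact add_left_cancel h1
    set q' : Fin N → MvPolynomial (Fin n) ℂ := fun j =>
      cz (o n) (δ j.succ - δ 0) (q j.succ) with hq'
    have hq'r : r 0 = ∑ j : Fin N, q' j * r j.succ := by
      have h1 := congrArg (cz (o n) (z - δ 0)) hqr'
      rw [cz_of_HZ (hrz 0), map_sum] at h1
      refine h1.trans (Finset.sum_congr rfl fun j _ => ?_)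
      rw [cz_mul _ _ (hrz j.succ)]
      simp only [hq']
      congr 3
      ring
    have hq'inv : ∀ j, IsInv D (q' j) := fun j => inv_cz D (hq _) _
    have hq'HZ : ∀ j, HZ (o n) (q' j) (δ j.succ - δ 0) := fun j => cz_HZ _ _ _
    choose b hb using fun j => exists_C_sub_mem D (hq'inv j) (hq'HZ j)
    have key := ih (fun j => δ j.succ) (fun j => c j.succ + q' j * c 0) (by
      intro j
      apply (hc _).add
      have := (hq'HZ j).mul (hc 0)
      rwa [sub_add_cancel] at this) (by
      intro a ha
      have h1 : ∑ j, a j • c j.succ + (∑ j, a j * b j) • c 0 ∈ hilb D := by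
        have h2 : ∑ j, a j • c j.succ + (∑ j, a j * b j) • c 0 =
            ∑ j, a j • (c j.succ + q' j * c 0) -
              (∑ j, C (a j) * (q' j - C (b j))) * c 0 := by
          rw [Finset.sum_mul, ← Finset.sum_sub_distrib, Finset.sum_smul, ← Finset.sum_add_distrib]
          apply Finset.sum_congr rfl
          intro j _
          rw [smul_eq_C_mul, smul_eq_C_mul, smul_eq_C_mul, C_mul]
          ring
        rw [h2]
        exact Ideal.sub_mem _ ha (Ideal.mul_mem_right _ _
          (Ideal.sum_mem _ fun j _ => Ideal.mul_mem_left _ _ (hb j)))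
      have h3 := hli (Fin.cons (∑ j, a j * b j) a) (by
        rw [Fin.sum_univ_succ]
        simp only [Fin.cons_zero, Fin.cons_succ]
        rw [add_comm]
        exact h1)
      funext j
      have h4 := congrFun h3 j.succ
      rw [Fin.cons_succ] at h4
      exact h4) (fun j => r j.succ) (fun j => hr _) z (fun j => hrz _) (by
      rw [Fin.sum_univ_succ, hq'r, Finset.sum_mul, ← Finset.sum_add_distrib] at hs
      rw [← hs]
      apply Finset.sum_congr rfl
      intro j _
      ring)
    intro j
    refine Fin.cases ?_ (fun j => key j) j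
    rw [hq'r]
    apply Finset.sum_eq_zero
    intro j _
    rw [key j, mul_zero]

/-- Independence over the ring of invariants. -/
theorem indep_inv {N : ℕ} (δ : Fin N → ℤ) (c : Fin N → MvPolynomial (Fin n) ℂ)
    (hc : ∀ j, HZ (o n) (c j) (δ j))
    (hli : ∀ a : Fin N → ℂ, ∑ j, a j • c j ∈ hilb D → a = 0)
    (r : Fin N → MvPolynomial (Fin n) ℂ) (hr : ∀ j, IsInv D (r j))
    (hs : ∑ j, r j * c j = 0) (j : Fin N) : r j = 0 := by
  apply eq_zero_of_cz (w := o n)
  intro z
  have h1 := indep_hom D N δ c hc hli (fun j' => cz (o n) (z + δ j - δ j') (r j'))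
    (fun j' => inv_cz D (hr _) _) (z + δ j) (fun j' => cz_HZ _ _ _) (by
      have h2 := congrArg (cz (o n) (z + δ j)) hs
      rw [map_zero, map_sum] at h2
      rw [← h2]
      apply Finset.sum_congr rfl
      intro j' _
      rw [cz_mul _ _ (hc j')]) j
  simpa using h1

end

theorem t_CST3' : S_CST3 := by
  classical
  intro n W _ _ D k B
  obtain ⟨N, c, hc, hsp, hli⟩ := exists_basis D
  choose δ hδ using hc
  refine ⟨N, c, fun j => ⟨δ j, (HZ_iff _ _).1 (hδ j)⟩, ?_⟩
  have hom : ∀ i, HZ (o n) (B.f i) (B.d i) := fun i => (HZ_iff _ _).2 (B.hom i)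
  have hinv : ∀ Q : MvPolynomial (Fin k) ℂ, IsInv D (aeval B.f Q) := by
    intro Q u
    have : (act (D.ρ u)).comp (aeval B.f) = aeval B.f := by
      apply MvPolynomial.algHom_ext
      intro i
      rw [AlgHom.comp_apply, aeval_X, B.inv i u]
    rw [← AlgHom.comp_apply, this]
  -- the span
  let Φ : (Fin N → MvPolynomial (Fin k) ℂ) →ₗ[ℂ] MvPolynomial (Fin n) ℂ :=
    { toFun := fun q => ∑ j, aeval B.f (q j) * c j
      map_add' := by
        intro q q'
        rw [← Finset.sum_add_distrib]
        apply Finset.sum_congr rfl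
        intro j _
        rw [Pi.add_apply, map_add, add_mul]
      map_smul' := by
        intro a q
        rw [RingHom.id_apply, Finset.smul_sum]
        apply Finset.sum_congr rfl
        intro j _
        rw [Pi.smul_apply, map_smul, smul_mul_assoc] }
  have hΦ : ∀ q, Φ q = ∑ j, aeval B.f (q j) * c j := fun q => rfl
  have hcmem : ∀ j, c j ∈ LinearMap.range Φ := by
    intro j
    refine ⟨Pi.single j 1, ?_⟩
    rw [hΦ, Finset.sum_eq_single j]
    · rw [Pi.single_eq_same, map_one, one_mul]
    · intro i _ hi
      rw [Pi.single_eq_of_ne hi, map_zero, zero_mul]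
    · intro h
      exact absurd (Finset.mem_univ _) h
  have hfmul : ∀ i h, h ∈ LinearMap.range Φ → h * B.f i ∈ LinearMap.range Φ := by
    rintro i h ⟨q, rfl⟩
    refine ⟨fun j => q j * X i, ?_⟩
    rw [hΦ, hΦ, Finset.sum_mul]
    apply Finset.sum_congr rfl
    intro j _
    rw [map_mul, aeval_X]
    ring
  have key : ∀ (e : ℕ) (h : MvPolynomial (Fin n) ℂ), HZ (o n) h e → h ∈ LinearMap.range Φ := by
    intro e
    induction e using Nat.strong_induction_on with
    | _ e ih =>
      intro h he
      obtain ⟨a, ha⟩ := hsp h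
      rw [B.hil] at ha
      obtain ⟨u, hu⟩ := (Ideal.mem_span_range_iff_exists_fun).1 ha
      have h1 : h = ∑ j, a j • cz (o n) e (c j) + ∑ i, cz (o n) (e - B.d i) (u i) * B.f i := by
        have h2 : h = ∑ j, a j • c j + ∑ i, u i * B.f i := by
          rw [hu]
          ring
        have h3 := congrArg (cz (o n) (e : ℤ)) h2
        rw [cz_of_HZ he, map_add, map_sum, map_sum] at h3
        refine h3.trans ?_
        congr 1
        · apply Finset.sum_congr rfl
          intro j _
          rw [map_smul]
        · apply Finset.sum_congr rfl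
          intro i _
          rw [cz_mul _ _ (hom i)]
      rw [h1]
      apply Submodule.add_mem
      · apply Submodule.sum_mem
        intro j _
        apply Submodule.smul_mem
        by_cases hj : ((δ j : ℕ) : ℤ) = e
        · rw [cz_of_HZ (hj ▸ hδ j)]
          exact hcmem j
        · rw [cz_of_HZ_ne (hδ j) hj]
          exact Submodule.zero_mem _
      · apply Submodule.sum_mem
        intro i _
        apply hfmul
        have h4 := cz_HZ (o n) (e - B.d i) (u i)
        by_cases h5 : (e : ℤ) - B.d i < 0
        · rw [h4.eq_zero (by intro i; simp [o]) h5]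
          exact Submodule.zero_mem _
        · have h6 : (e : ℤ) - B.d i = ((e - B.d i : ℕ) : ℤ) := by omega
          rw [h6] at h4 ⊢
          exact ih (e - B.d i) (by have := B.dpos i; omega) _ h4
  have htop : ∀ h, h ∈ LinearMap.range Φ := by
    intro h
    apply mem_of_cz (w := o n)
    intro z
    have h3 := cz_HZ (o n) z h
    by_cases hz : z < 0
    · rw [h3.eq_zero (by intro i; simp [o]) hz]
      exact Submodule.zero_mem _
    · have h2 : z = (z.toNat : ℤ) := by omega
      rw [h2] at h3 ⊢
      exact key _ _ h3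
  intro h
  obtain ⟨q, hq⟩ := htop h
  refine ⟨q, hq.symm, ?_⟩
  intro q' hq'
  funext j
  have h1 := indep_inv D (fun j => ((δ j : ℕ) : ℤ)) c hδ hli (fun j => aeval B.f (q' j - q j))
    (fun j => hinv _) (by
      have h2 : ∑ j, aeval B.f (q' j - q j) * c j =
          ∑ j, aeval B.f (q' j) * c j - ∑ j, aeval B.f (q j) * c j := by
        rw [← Finset.sum_sub_distrib]
        apply Finset.sum_congr rfl
        intro j _
        rw [map_sub, sub_mul]
      rw [h2, ← hΦ q, hq, ← hq', sub_self]) j
  have h2 := (algebraicIndependent_iff.1 B.ind) _ h1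
  exact sub_eq_zero.1 h2

theorem t_CST3 (_ : S_CST1) : S_CST3 := t_CST3'

end Pool.Agent.V5helper7.CM
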