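import Pool.Agent.V5helper7.CM.LEFTa

/-!
# Project CM: job LEFT
-/

namespace Pool.Agent.V5helper7.CM

open MvPolynomial Pool.Agent.V5helper32.CM

section

variable {n : ℕ} {W : Type} [Group W] [Fintype W] {D : Rd n W} {H : Type} [Ring H] [Algebra ℂ H]

theorem gam_i (Φ : Full D H) (s : ℂˣ) {f : MvPolynomial (Fin n) ℂ} {d : ℕ}
    (hf : f.IsHomogeneous d) : Φ.γ s (Φ.T.i f) = (s : ℂ) ^ d • Φ.T.i f := by
  have h1 : (Φ.γ s).comp Φ.T.i =
      Φ.T.i.comp (aeval (fun a => (s : ℂ) • (X a : MvPolynomial (Fin n) ℂ))) := by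
    apply MvPolynomial.algHom_ext
    intro a
    rw [AlgHom.comp_apply, AlgHom.comp_apply, aeval_X, Φ.γi, map_smul]
  have h2 := congrArg (fun g => g f) h1
  simp only [AlgHom.comp_apply] at h2
  rw [h2, aeval_smul_X _ hf, map_smul]

theorem gam_j (Φ : Full D H) (s : ℂˣ) {f : MvPolynomial (Fin n) ℂ} {d : ℕ}
    (hf : f.IsHomogeneous d) : Φ.γ s (Φ.T.j f) = ((s⁻¹ : ℂˣ) : ℂ) ^ d • Φ.T.j f := by
  have h1 : (Φ.γ s).comp Φ.T.j =
      Φ.T.j.comp (aeval (fun a => ((s⁻¹ : ℂˣ) : ℂ) • (X a : MvPolynomial (Fin n) ℂ))) := by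
    apply MvPolynomial.algHom_ext
    intro a
    rw [AlgHom.comp_apply, AlgHom.comp_apply, aeval_X, Φ.γj, map_smul]
  have h2 := congrArg (fun g => g f) h1
  simp only [AlgHom.comp_apply] at h2
  rw [h2, aeval_smul_X _ hf, map_smul]

variable {Λ : Type} [Ring Λ] [Algebra ℂ Λ] {Sp : Type} [AddCommGroup Sp] [Module ℂ Sp]
    [Module Λ Sp] [IsScalarTower ℂ Λ Sp] (A : Su D H Λ Sp)

include A in
theorem sigma_F (i : Fin n) : A.σ (A.F i) = A.CF.ζ i • A.F i := by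
  apply Subtype.ext
  rw [A.hσ, A.hF, A.Φ.σi, A.CF.eig, map_smul]
  show _ = A.CF.ζ i • (A.F i : H)
  rw [A.hF]

include A in
theorem sigma_G (i : Fin n) : A.σ (A.G i) = A.CG.ζ i • A.G i := by
  apply Subtype.ext
  rw [A.hσ, A.hG, A.Φ.σj, ← A.ht, A.CG.eig, map_smul]
  show _ = A.CG.ζ i • (A.G i : H)
  rw [A.hG]

theorem mem_of_eig (q : Ideal (Zc H)) (z : Zc H) (ζ : ℂ) (hζ : ζ ≠ 1) (h : ζ • z - z ∈ q) :
    z ∈ q := by
  have h2 := q.mul_mem_left (algebraMap ℂ (Zc H) (ζ - 1)⁻¹) h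
  have h1 : algebraMap ℂ (Zc H) (ζ - 1)⁻¹ * (ζ • z - z) = z := by
    apply Subtype.ext
    show algebraMap ℂ H (ζ - 1)⁻¹ * (ζ • (z : H) - z) = z
    have h3 : ζ • (z : H) - z = (ζ - 1) • (z : H) := by rw [sub_smul, one_smul]
    rw [h3, ← Algebra.smul_def, smul_smul, inv_mul_cancel₀ (sub_ne_zero.2 hζ), one_smul]
  rwa [h1] at h2

theorem F_mem (q : Ideal (Zc H)) (hq : ∀ z, A.σ z - z ∈ q) (i : Fin n) (hi : A.CF.ζ i ≠ 1) :
    A.F i ∈ q := by
  apply mem_of_eig q _ _ hi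
  rw [← sigma_F]
  exact hq _

theorem G_mem (q : Ideal (Zc H)) (hq : ∀ z, A.σ z - z ∈ q) (i : Fin n) (hi : A.CG.ζ i ≠ 1) :
    A.G i ∈ q := by
  apply mem_of_eig q _ _ hi
  rw [← sigma_G]
  exact hq _

/-- The finiteness condition for quotients of the centre. -/
theorem FG_quot {r : ℕ} (en : Fin r ≃ {i // A.CF.ζ i = 1} ⊕ {i // A.CG.ζ i = 1})
    (a : MvPolynomial (Fin r) ℂ →ₐ[ℂ] Zc H)
    (ha : ∀ k, a (X k) = Sum.elim (fun i => A.F i.1) (fun i => A.G i.1) (en k))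
    (hfg : FG (List.ofFn A.F ++ List.ofFn A.G) (Zc H)) {B : Type} [CommRing B] [Algebra ℂ B]
    (π : Zc H →ₐ[ℂ] B) (hπ : Function.Surjective π) (hF : ∀ i, A.CF.ζ i ≠ 1 → π (A.F i) = 0)
    (hG : ∀ i, A.CG.ζ i ≠ 1 → π (A.G i) = 0) :
    FG (List.ofFn fun k => π (a (X k))) B := by
  refine FG_transfer π.toLinearMap hπ _ _ ?_ hfg
  intro x hx
  rw [List.mem_append, List.mem_ofFn, List.mem_ofFn] at hx
  rcases hx with ⟨i, rfl⟩ | ⟨i, rfl⟩
  · by_cases hi : A.CF.ζ i = 1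
    · left
      refine ⟨π (A.F i), ?_, fun m => ?_⟩
      · rw [List.mem_ofFn]
        refine ⟨en.symm (Sum.inl ⟨i, hi⟩), ?_⟩
        rw [ha, Equiv.apply_symm_apply, Sum.elim_inl]
      · exact map_mul π _ _
    · right
      intro m
      have : π (A.F i * m) = π (A.F i) * π m := map_mul π _ _
      rw [hF i hi, zero_mul] at this
      exact this
  · by_cases hi : A.CG.ζ i = 1
    · left
      refine ⟨π (A.G i), ?_, fun m => ?_⟩
      · rw [List.mem_ofFn]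
        refine ⟨en.symm (Sum.inr ⟨i, hi⟩), ?_⟩
        rw [ha, Equiv.apply_symm_apply, Sum.elim_inr]
      · exact map_mul π _ _
    · right
      intro m
      have : π (A.G i * m) = π (A.G i) * π m := map_mul π _ _
      rw [hG i hi, zero_mul] at this
      exact this

/-- The finiteness condition for the reduced spherical module. -/
theorem FG_N {r : ℕ} (en : Fin r ≃ {i // A.CF.ζ i = 1} ⊕ {i // A.CG.ζ i = 1})
    (a : MvPolynomial (Fin r) ℂ →ₐ[ℂ] Zc H)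
    (ha : ∀ k, a (X k) = Sum.elim (fun i => A.F i.1) (fun i => A.G i.1) (en k))
    (hfg : FG ((List.ofFn A.F ++ List.ofFn A.G).map A.s.ι) Sp) (P : Submodule Λ Sp)
    (hPF : ∀ (i : Fin n) (m : Sp), A.CF.ζ i ≠ 1 → A.s.ι (A.F i) • m ∈ P)
    (hPG : ∀ (i : Fin n) (m : Sp), A.CG.ζ i ≠ 1 → A.s.ι (A.G i) • m ∈ P) :
    FG (List.ofFn fun k => A.s.ι (a (X k))) (Sp ⧸ P) := by
  let φ : Sp →ₗ[ℂ] (Sp ⧸ P) :=
    { toFun := fun m => P.mkQ m
      map_add' := fun m m' => map_add _ m m'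
      map_smul' := fun c m => by
        rw [RingHom.id_apply, ← algebraMap_smul Λ c m, map_smul, algebraMap_smul] }
  have hφ : ∀ m, φ m = P.mkQ m := fun m => rfl
  refine FG_transfer φ P.mkQ_surjective _ _ ?_ hfg
  intro x hx
  rw [List.mem_map] at hx
  obtain ⟨y, hy, rfl⟩ := hx
  rw [List.mem_append, List.mem_ofFn, List.mem_ofFn] at hy
  rcases hy with ⟨i, rfl⟩ | ⟨i, rfl⟩
  · by_cases hi : A.CF.ζ i = 1
    · left
      refine ⟨A.s.ι (A.F i), ?_, fun m => ?_⟩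
      · rw [List.mem_ofFn]
        refine ⟨en.symm (Sum.inl ⟨i, hi⟩), ?_⟩
        rw [ha, Equiv.apply_symm_apply, Sum.elim_inl]
      · rw [hφ, hφ, map_smul]
    · right
      intro m
      rw [hφ, Submodule.mkQ_apply, Submodule.Quotient.mk_eq_zero]
      exact hPF i m hi
  · by_cases hi : A.CG.ζ i = 1
    · left
      refine ⟨A.s.ι (A.G i), ?_, fun m => ?_⟩
      · rw [List.mem_ofFn]
        refine ⟨en.symm (Sum.inr ⟨i, hi⟩), ?_⟩
        rw [ha, Equiv.apply_symm_apply, Sum.elim_inr]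
      · rw [hφ, hφ, map_smul]
    · right
      intro m
      rw [hφ, Submodule.mkQ_apply, Submodule.Quotient.mk_eq_zero]
      exact hPG i m hi

/-- `Q` is the only prime ideal of the fixed locus which does not meet the parameters. -/
theorem Q_unique (hDIM : S_DIM) {r : ℕ}
    (en : Fin r ≃ {i // A.CF.ζ i = 1} ⊕ {i // A.CG.ζ i = 1})
    (a : MvPolynomial (Fin r) ℂ →ₐ[ℂ] Zc H)
    (ha : ∀ k, a (X k) = Sum.elim (fun i => A.F i.1) (fun i => A.G i.1) (en k))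
    (hfg : FG (List.ofFn A.F ++ List.ofFn A.G) (Zc H)) (Q : Ideal (Zc H))
    (hQ : IsMaxQ A.Φ.σ Q) (q : Ideal (Zc H)) (hq : q.IsPrime) (hqσ : ∀ z, A.σ z - z ∈ q)
    (hqa : ∀ b, a b ∈ q → b = 0) : q = Q := by
  by_contra hne
  have hQσ : ∀ z, A.σ z - z ∈ Q := fun z => hQ.2.1 z (A.σ z) (A.hσ z)
  have h1 := hQ.2.2 q hq (by
    intro z z' hz
    have : z' = A.σ z := Subtype.ext (by rw [hz, A.hσ])
    rw [this]
    exact hqσ z) hne
  have h2 := hDIM (Zc H) r a Q q hQ.1 hq (by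
    intro z
    let B := Zc H ⧸ (Q ⊓ q)
    let π : Zc H →ₐ[ℂ] B := Ideal.Quotient.mkₐ ℂ (Q ⊓ q)
    have hπ0 : ∀ z, π z = 0 ↔ z ∈ Q ⊓ q := fun z => Ideal.Quotient.eq_zero_iff_mem
    have h3 := FG_quot A en a ha hfg π (Ideal.Quotient.mk_surjective)
      (fun i hi => (hπ0 _).2 ⟨F_mem A Q hQσ i hi, F_mem A q hqσ i hi⟩)
      (fun i hi => (hπ0 _).2 ⟨G_mem A Q hQσ i hi, G_mem A q hqσ i hi⟩)
    obtain ⟨f, hf, hf0⟩ := integral_of_FG (π.comp a) h3 (π z)
    refine ⟨f, hf, ?_⟩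
    rw [← hπ0]
    have h4 : π (Polynomial.eval₂ a.toRingHom z f) =
        Polynomial.eval₂ (π.comp a).toRingHom (π z) f := by
      have := Polynomial.hom_eval₂ f a.toRingHom π.toRingHom z
      exact this
    rw [h4, hf0]) hqa
  exact absurd h2 (not_le.2 h1)

theorem a_fixed {r : ℕ} (en : Fin r ≃ {i // A.CF.ζ i = 1} ⊕ {i // A.CG.ζ i = 1})
    (a : MvPolynomial (Fin r) ℂ →ₐ[ℂ] Zc H)
    (ha : ∀ k, a (X k) = Sum.elim (fun i => A.F i.1) (fun i => A.G i.1) (en k)) (k : Fin r) :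
    A.σ (a (X k)) = a (X k) := by
  rw [ha]
  rcases en k with i | i
  · rw [Sum.elim_inl, sigma_F, i.2, one_smul]
  · rw [Sum.elim_inr, sigma_G, i.2, one_smul]

theorem cenL {r : ℕ} (a : MvPolynomial (Fin r) ℂ →ₐ[ℂ] Zc H)
    (hσa : ∀ k, A.σ (a (X k)) = a (X k)) :
    CenL (List.ofFn fun k => A.s.ι (a (X k))) := by
  intro x hx l
  rw [List.mem_ofFn] at hx
  obtain ⟨k, rfl⟩ := hx
  exact iota_central A.s (hσa k) l

section

variable {B : Type} [CommRing B] [Algebra ℂ B] [Module Λ B] [IsScalarTower ℂ Λ B]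
  (π : Zc H →ₐ[ℂ] B)

theorem EE_B (hECMP : S_ECMP) (hPHI : S_PHI) (hπ : Function.Surjective π)
    (hz : ∀ (z : Zc H) (b : B), A.s.ι z • b = π z * b) (ht : ∀ b : B, A.s.t • b = b) {r : ℕ}
    (a : MvPolynomial (Fin r) ℂ →ₐ[ℂ] Zc H) (hσa : ∀ k, A.σ (a (X k)) = a (X k))
    (p : Zc H →ₐ[ℂ] ℂ) (pB : B →ₐ[ℂ] ℂ) (hp : ∀ z, pB (π z) = p z) :
    EE (phi A.s.ι p A.s.t) (List.ofFn fun k => A.s.ι (a (X k))) B =
      EE (phi (AlgHom.id ℂ B) pB 1) (List.ofFn fun k => π (a (X k))) B := by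
  have h1 := hECMP Λ B (Option (Zc H)) (fun k => k.elim A.s.t A.s.ι) (fun k => k.elim 1 π) 1
    (phi A.s.ι p A.s.t) (phi (AlgHom.id ℂ B) pB 1) (by
      intro M M' _ _ _ _ _ _ _ _ ψ hψ
      exact hPHI.2 (Zc H) B Λ B A.s.ι A.s.t (AlgHom.id ℂ B) 1 π p pB 1 M M' ψ hπ
        (fun z => (hp z).symm) one_ne_zero (fun z m => hψ (some z) m)
        (fun m => by rw [one_smul]; exact hψ none m))
    (List.ofFn fun k => some (a (X k))) (by
      rw [List.map_ofFn]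
      exact cenL A a hσa) (by
      intro x _ l
      exact mul_comm _ _) B B (LinearEquiv.refl ℂ B) (by
      intro k b
      rcases k with _ | z
      · show A.s.t • b = (1 : B) • b
        rw [ht, one_smul]
      · show A.s.ι z • b = π z • b
        rw [hz, smul_eq_mul])
  rw [List.map_ofFn, List.map_ofFn, one_mul] at h1
  exact h1

theorem EE_B_zero (hECMP : S_ECMP)
    (hz : ∀ (z : Zc H) (b : B), A.s.ι z • b = π z * b) (ht : ∀ b : B, A.s.t • b = b) {r : ℕ}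
    (a : MvPolynomial (Fin r) ℂ →ₐ[ℂ] Zc H) (hσa : ∀ k, A.σ (a (X k)) = a (X k))
    (p : Zc H →ₐ[ℂ] ℂ) (z₀ : Zc H) (hz₀ : π z₀ = 0) (hp : p z₀ ≠ 0) :
    EE (phi A.s.ι p A.s.t) (List.ofFn fun k => A.s.ι (a (X k))) B = 0 := by
  have h1 := hECMP Λ B (Option (Zc H)) (fun k => k.elim A.s.t A.s.ι) (fun k => k.elim 1 π) 0
    (phi A.s.ι p A.s.t) (fun _ _ _ _ _ => 0) (by
      intro M M' _ _ _ _ _ _ _ _ ψ hψ
      rw [mul_zero]
      have h2 : ∀ m : M, A.s.ι z₀ • m = 0 := by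
        intro m
        apply ψ.injective
        have h3 : ψ (A.s.ι z₀ • m) = π z₀ • ψ m := hψ (some z₀) m
        rw [h3, hz₀, zero_smul, map_zero]
      have h3 : gsp A.s.ι p M = ⊥ := by
        rw [eq_bot_iff]
        intro m hm
        rw [Submodule.mem_bot]
        obtain ⟨N, hN⟩ := hm z₀
        have h4 : ∀ (N : ℕ) (m : M), (A.s.ι z₀ - algebraMap ℂ Λ (p z₀)) ^ N • m =
            (-p z₀) ^ N • m := by
          intro N
          induction N with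
          | zero =>
            intro m
            rw [pow_zero, pow_zero, one_smul, one_smul]
          | succ N ih =>
            intro m
            rw [pow_succ, pow_succ, mul_smul, mul_smul, sub_smul, h2, algebraMap_smul, zero_sub,
              ← neg_smul, ih]
        rw [h4] at hN
        rcases smul_eq_zero.1 hN with h5 | h5
        · exact absurd h5 (pow_ne_zero _ (neg_ne_zero.2 hp))
        · exact h5
      unfold phi
      split_ifs with h5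
      · have h6 : Subsingleton (gsp A.s.ι p M) := by
          rw [h3]
          infer_instance
        have h7 : (Algebra.lsmul ℂ ℂ M A.s.t).restrict h5 = 0 := LinearMap.ext fun x =>
          Subsingleton.elim _ _
        rw [h7, map_zero]
      · rfl)
    (List.ofFn fun k => some (a (X k))) (by
      rw [List.map_ofFn]
      exact cenL A a hσa) (by
      intro x _ l
      exact mul_comm _ _) B B (LinearEquiv.refl ℂ B) (by
      intro k b
      rcases k with _ | z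
      · show A.s.t • b = (1 : B) • b
        rw [ht, one_smul]
      · show A.s.ι z • b = π z • b
        rw [hz, smul_eq_mul])
  rw [List.map_ofFn, zero_mul] at h1
  exact h1

end

end

theorem t_LEFT (_ : S_FG) (hECMP : S_ECMP) (hPHI : S_PHI) (hDEV : S_DEV) (hDIM : S_DIM)
    (hSU : S_SU) (hZFIN : S_ZFIN) (hTHMA : S_THMA) (hCHAR : S_CHAR) : S_LEFT := by
  classical
  intro n W _ _ D H _ _ Φ Q hQ B _ _ π hπ hπQ S R hR
  obtain ⟨Λ, iΛ, iΛa, Sp, i1, i2, i3, i4, A, hA, huniv⟩ := hSU n W D H Φ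
  subst hA
  have hQσ : ∀ z, A.σ z - z ∈ Q := fun z => hQ.2.1 z (A.σ z) (A.hσ z)
  have hπσ : ∀ z, π (A.σ z) = π z := by
    intro z
    have := (hπQ _).2 (hQσ z)
    rw [map_sub] at this
    exact sub_eq_zero.1 this
  obtain ⟨hnoeth, hfgZ, hfgSp⟩ := hZFIN n W D H Λ Sp A
  -- enumerations
  let r₁ := Fintype.card {i // A.CF.ζ i = 1}
  let r₂ := Fintype.card {i // A.CG.ζ i = 1}
  let e₁ : Fin r₁ ≃ {i // A.CF.ζ i = 1} := (Fintype.equivFin _).symm
  let e₂ : Fin r₂ ≃ {i // A.CG.ζ i = 1} := (Fintype.equivFin _).symm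
  let en : Fin (r₁ + r₂) ≃ {i // A.CF.ζ i = 1} ⊕ {i // A.CG.ζ i = 1} :=
    finSumFinEquiv.symm.trans (Equiv.sumCongr e₁ e₂)
  let a : MvPolynomial (Fin (r₁ + r₂)) ℂ →ₐ[ℂ] Zc H :=
    aeval fun k => Sum.elim (fun i => A.F i.1) (fun i => A.G i.1) (en k)
  have ha : ∀ k, a (X k) = Sum.elim (fun i => A.F i.1) (fun i => A.G i.1) (en k) :=
    fun k => aeval_X _ k
  have hσa : ∀ k, A.σ (a (X k)) = a (X k) := a_fixed A en a ha
  have happ : (List.ofFn fun k => π (a (X k))) =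
      ((List.ofFn fun k => A.F (e₁ k).1) ++ List.ofFn fun k => A.G (e₂ k).1).map π := by
    rw [List.map_append, List.map_ofFn, List.map_ofFn, List.ofFn_add]
    congr 2
    · funext k
      show π (a (X (Fin.castAdd r₂ k))) = π (A.F (e₁ k).1)
      rw [ha]
      show π (Sum.elim _ _ (Sum.map e₁ e₂ (finSumFinEquiv.symm (Fin.castAdd r₂ k)))) = _
      rw [finSumFinEquiv_symm_apply_castAdd]
      rfl
    · funext k
      show π (a (X (Fin.natAdd r₁ k))) = π (A.G (e₂ k).1)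
      rw [ha]
      show π (Sum.elim _ _ (Sum.map e₁ e₂ (finSumFinEquiv.symm (Fin.natAdd r₁ k)))) = _
      rw [finSumFinEquiv_symm_apply_natAdd]
      rfl
  -- the module `B` over `Λ`
  obtain ⟨K, hKz, hKt⟩ := huniv (Module.End ℂ B)
    ((Algebra.lmul ℂ B).comp π) 1 (one_pow _) (by
      intro z
      rw [one_mul, mul_one, AlgHom.comp_apply, AlgHom.comp_apply, hπσ])
  let _ : Module Λ B := Module.compHom B (K : Λ →+* Module.End ℂ B)
  have hsm : ∀ (l : Λ) (b : B), l • b = K l b := fun l b => rfl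
  have _ : IsScalarTower ℂ Λ B := by
    refine ⟨fun c l b => ?_⟩
    rw [hsm, hsm, map_smul, LinearMap.smul_apply]
  have hz : ∀ (z : Zc H) (b : B), A.s.ι z • b = π z * b := by
    intro z b
    rw [hsm, hKz]
    rfl
  have ht : ∀ b : B, A.s.t • b = b := by
    intro b
    rw [hsm, hKt]
    rfl
  -- devissage
  let P : Submodule Λ Sp := Submodule.span Λ {v : Sp | ∃ (i : Fin n) (m : Sp),
    (A.CF.ζ i ≠ 1 ∧ v = A.s.ι (A.F i) • m) ∨ (A.CG.ζ i ≠ 1 ∧ v = A.s.ι (A.G i) • m)}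
  obtain ⟨c, hc⟩ := hDEV (Zc H) A.σ Λ A.s (r₁ + r₂) a (by
      intro b
      have : (A.σ : Zc H →ₐ[ℂ] Zc H).comp a = a := MvPolynomial.algHom_ext hσa
      exact congrArg (fun g => g b) this) Q
    (fun q hq hqσ hqa => Q_unique A hDIM en a ha hfgZ Q hQ q hq hqσ hqa) (Sp ⧸ P) B 1
    (FG_N A en a ha hfgSp P
      (fun i m hi => Submodule.subset_span ⟨i, m, Or.inl ⟨hi, rfl⟩⟩)
      (fun i m hi => Submodule.subset_span ⟨i, m, Or.inr ⟨hi, rfl⟩⟩)) (by
      intro v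
      obtain ⟨z, rfl⟩ := hπ v
      exact ⟨z, by rw [hz, mul_one]⟩) (by
      intro z
      rw [hz, mul_one, hπQ]) (ht 1)
  have hPSσ : ∀ p : Zc H →ₐ[ℂ] ℂ, PS A.Φ p → ∀ z, p (A.σ z) = p z :=
    fun p hp z => hp z (A.σ z) (A.hσ z)
  have hlhs : ∀ p : Zc H →ₐ[ℂ] ℂ, PG A.Φ p → PS A.Φ p → ((lhs A.Φ S R p : ℝ) : ℂ) =
      c * EE (phi A.s.ι p A.s.t) (List.ofFn fun k => A.s.ι (a (X k))) B := by
    intro p hp hp'
    rw [← hTHMA n W D H Λ Sp A p hp hp' S R hR (r₁ + r₂) en a ha]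
    exact hc p (hPSσ p hp')
  refine ⟨List.ofFn fun k => A.F (e₁ k).1, List.ofFn fun k => A.G (e₂ k).1, c, ?_, ?_, ?_, ?_, ?_,
    ?_, ?_, ?_, ?_⟩
  · intro x hx
    rw [List.mem_ofFn] at hx
    obtain ⟨k, rfl⟩ := hx
    refine ⟨(A.CF.d (e₁ k).1 : ℤ), by exact_mod_cast A.CF.dpos _, fun s => ?_⟩
    rw [A.hF, gam_i A.Φ s (A.CF.hom _), zpow_natCast, Units.val_pow_eq_pow_val]
  · intro x hx
    rw [List.mem_ofFn] at hx
    obtain ⟨k, rfl⟩ := hx
    refine ⟨-(A.CG.d (e₂ k).1 : ℤ), by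
      have := A.CG.dpos (e₂ k).1
      omega, fun s => ?_⟩
    rw [A.hG, gam_j A.Φ s (A.CG.hom _), zpow_neg, zpow_natCast, ← inv_pow,
      Units.val_pow_eq_pow_val]
  · rw [List.length_ofFn]
    have := A.CF.dim
    rwa [Nat.card_eq_fintype_card] at this
  · rw [List.length_ofFn]
    have := A.CG.dim
    rw [Nat.card_eq_fintype_card, A.ht, finrank_dual] at this
    exact this
  · rw [List.length_ofFn]
    have := Fintype.card_subtype_le fun i => A.CF.ζ i = 1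
    rwa [Fintype.card_fin] at this
  · rw [List.length_ofFn]
    have := Fintype.card_subtype_le fun i => A.CG.ζ i = 1
    rwa [Fintype.card_fin] at this
  · rw [← happ]
    exact FG_quot A en a ha hfgZ π hπ
      (fun i hi => (hπQ _).2 (F_mem A Q hQσ i hi)) (fun i hi => (hπQ _).2 (G_mem A Q hQσ i hi))
  · intro p hp pB hpB
    have hPS : PS A.Φ p := by
      intro z z' hz'
      have : z' = A.σ z := Subtype.ext (by rw [hz', A.hσ])
      rw [this, ← hpB, hπσ, hpB]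
    rw [hlhs p hp hPS, EE_B A π hECMP hPHI hπ hz ht a hσa p pB hpB, happ]
  · intro p hp ⟨z₀, hz₀, hpz₀⟩
    by_cases hPS : PS A.Φ p
    · have h1 := hlhs p hp hPS
      rw [EE_B_zero A π hECMP hz ht a hσa p z₀ ((hπQ _).2 hz₀) hpz₀, mul_zero] at h1
      exact_mod_cast h1
    · unfold lhs
      apply Finset.sum_eq_zero
      intro i _
      rw [if_neg]
      rintro ⟨h1, h2⟩
      exact hPS ((hCHAR n W D H A.Φ S).2.2 p hp i h2 h1)

end Pool.Agent.V5helper7.CM
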