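import Pool.Agent.V5helper32.CM.Stm

/-!
# Project CM: graded bookkeeping for the invariant theory of reflection groups
-/

namespace Pool.Agent.V5helper7.CM

open MvPolynomial Pool.Agent.V5helper32.CM

section grading

variable {σ : Type} [Fintype σ]

/-- Homogeneous of integer degree `z` (so zero if `z < 0`), for integer weights `w`. -/
def HZ (w : σ → ℤ) (h : MvPolynomial σ ℂ) (z : ℤ) : Prop :=
  ∀ m, coeff m h ≠ 0 → ∑ i, (m i : ℤ) * w i = z

theorem HZ.zero (w : σ → ℤ) (z : ℤ) : HZ w (0 : MvPolynomial σ ℂ) z := by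
  intro m hm
  simp at hm

theorem HZ.add {w : σ → ℤ} {h k : MvPolynomial σ ℂ} {z : ℤ} (hh : HZ w h z) (hk : HZ w k z) :
    HZ w (h + k) z := by
  intro m hm
  by_cases h1 : coeff m h = 0
  · by_cases h2 : coeff m k = 0
    · rw [coeff_add, h1, h2, add_zero] at hm
      exact absurd rfl hm
    · exact hk m h2
  · exact hh m h1

theorem HZ.smul {w : σ → ℤ} {h : MvPolynomial σ ℂ} {z : ℤ} (c : ℂ) (hh : HZ w h z) :
    HZ w (c • h) z := by
  intro m hm
  apply hh m
  intro h0
  rw [coeff_smul, h0, smul_zero] at hm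
  exact hm rfl

theorem HZ.neg {w : σ → ℤ} {h : MvPolynomial σ ℂ} {z : ℤ} (hh : HZ w h z) :
    HZ w (-h) z := by
  have := hh.smul (-1)
  rwa [neg_one_smul] at this

theorem HZ.sub {w : σ → ℤ} {h k : MvPolynomial σ ℂ} {z : ℤ} (hh : HZ w h z) (hk : HZ w k z) :
    HZ w (h - k) z := by
  rw [sub_eq_add_neg]
  exact hh.add hk.neg

theorem HZ.sum {w : σ → ℤ} {ι : Type} (s : Finset ι) {h : ι → MvPolynomial σ ℂ} {z : ℤ}
    (hh : ∀ i ∈ s, HZ w (h i) z) : HZ w (∑ i ∈ s, h i) z := by
  classical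
  induction s using Finset.induction_on with
  | empty => simpa using HZ.zero w z
  | insert a s ha ih =>
    rw [Finset.sum_insert ha]
    exact (hh a (Finset.mem_insert_self a s)).add
      (ih fun i hi => hh i (Finset.mem_insert_of_mem hi))

theorem HZ.mul {w : σ → ℤ} {h k : MvPolynomial σ ℂ} {y z : ℤ} (hh : HZ w h y) (hk : HZ w k z) :
    HZ w (h * k) (y + z) := by
  classical
  intro m hm
  rw [coeff_mul] at hm
  obtain ⟨x, hx, hx0⟩ := Finset.exists_ne_zero_of_sum_ne_zero hm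
  have h1 : coeff x.1 h ≠ 0 := fun h0 => hx0 (by rw [h0, zero_mul])
  have h2 : coeff x.2 k ≠ 0 := fun h0 => hx0 (by rw [h0, mul_zero])
  have e1 := hh _ h1
  have e2 := hk _ h2
  rw [Finset.HasAntidiagonal.mem_antidiagonal] at hx
  rw [← e1, ← e2, ← Finset.sum_add_distrib]
  apply Finset.sum_congr rfl
  intro i _
  rw [← hx, Finsupp.add_apply]
  push_cast
  ring

theorem HZ.C (w : σ → ℤ) (c : ℂ) : HZ w (C c : MvPolynomial σ ℂ) 0 := by
  classical
  intro m hm
  rw [coeff_C] at hm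
  have : 0 = m := by
    by_contra h
    rw [if_neg h] at hm
    exact hm rfl
  subst this
  simp

theorem HZ.one (w : σ → ℤ) : HZ w (1 : MvPolynomial σ ℂ) 0 := HZ.C w 1

theorem HZ.X (w : σ → ℤ) (i : σ) : HZ w (X i : MvPolynomial σ ℂ) (w i) := by
  classical
  intro m hm
  rw [coeff_X] at hm
  have : Finsupp.single i 1 = m := by
    by_contra h
    rw [if_neg h] at hm
    exact hm rfl
  subst this
  rw [Finset.sum_eq_single i]
  · simp
  · intro j _ hj
    rw [Finsupp.single_apply, if_neg (Ne.symm hj)]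
    simp
  · intro h
    exact absurd (Finset.mem_univ i) h

theorem HZ.pow {w : σ → ℤ} {h : MvPolynomial σ ℂ} {z : ℤ} (hh : HZ w h z) (n : ℕ) :
    HZ w (h ^ n) (n * z) := by
  induction n with
  | zero => simpa using HZ.one w
  | succ n ih =>
    rw [pow_succ]
    have := ih.mul hh
    convert this using 1
    push_cast
    ring

theorem HZ.prod {w : σ → ℤ} {ι : Type} (s : Finset ι) {h : ι → MvPolynomial σ ℂ} {z : ι → ℤ}
    (hh : ∀ i ∈ s, HZ w (h i) (z i)) : HZ w (∏ i ∈ s, h i) (∑ i ∈ s, z i) := by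
  classical
  induction s using Finset.induction_on with
  | empty => simpa using HZ.one w
  | insert a s ha ih =>
    rw [Finset.prod_insert ha, Finset.sum_insert ha]
    exact (hh a (Finset.mem_insert_self a s)).mul
      (ih fun i hi => hh i (Finset.mem_insert_of_mem hi))

theorem HZ.eq_zero {w : σ → ℤ} (hw : ∀ i, 0 ≤ w i) {h : MvPolynomial σ ℂ} {z : ℤ}
    (hh : HZ w h z) (hz : z < 0) : h = 0 := by
  ext m
  rw [coeff_zero]
  by_contra h0
  have := hh m h0
  have h1 : 0 ≤ ∑ i, (m i : ℤ) * w i :=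
    Finset.sum_nonneg fun i _ => mul_nonneg (Int.natCast_nonneg _) (hw i)
  omega

theorem HZ.eq_zero_of_ne {w : σ → ℤ} {h : MvPolynomial σ ℂ} {y z : ℤ}
    (hh : HZ w h y) (hk : HZ w h z) (hyz : y ≠ z) : h = 0 := by
  ext m
  rw [coeff_zero]
  by_contra h0
  exact hyz ((hh m h0).symm.trans (hk m h0))

/-- The component of degree `z`. -/
noncomputable def cz (w : σ → ℤ) (z : ℤ) : MvPolynomial σ ℂ →ₗ[ℂ] MvPolynomial σ ℂ :=
  weightedHomogeneousComponent w z

theorem coeff_cz (w : σ → ℤ) (z : ℤ) (h : MvPolynomial σ ℂ) (m : σ →₀ ℕ) :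
    coeff m (cz w z h) = if ∑ i, (m i : ℤ) * w i = z then coeff m h else 0 := by
  unfold cz
  rw [coeff_weightedHomogeneousComponent, Finsupp.weight_apply,
    Finsupp.sum_fintype _ _ (by intro i; rw [zero_smul])]
  simp_rw [nsmul_eq_mul]

theorem cz_HZ (w : σ → ℤ) (z : ℤ) (h : MvPolynomial σ ℂ) : HZ w (cz w z h) z := by
  intro m hm
  by_contra h0
  rw [coeff_cz, if_neg h0] at hm
  exact hm rfl

theorem cz_of_HZ {w : σ → ℤ} {z : ℤ} {h : MvPolynomial σ ℂ} (hh : HZ w h z) : cz w z h = h := by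
  ext m
  rw [coeff_cz]
  split_ifs with h0
  · rfl
  · by_contra h1
    exact h0 (hh m (Ne.symm h1))

theorem cz_of_HZ_ne {w : σ → ℤ} {y z : ℤ} {h : MvPolynomial σ ℂ} (hh : HZ w h y)
    (hyz : y ≠ z) : cz w z h = 0 := by
  ext m
  rw [coeff_cz, coeff_zero]
  split_ifs with h0
  · by_contra h1
    exact hyz ((hh m h1).symm.trans h0)
  · rfl

theorem cz_mul {w : σ → ℤ} (z : ℤ) {b : ℤ} (q : MvPolynomial σ ℂ) {g : MvPolynomial σ ℂ}
    (hg : HZ w g b) : cz w z (q * g) = cz w (z - b) q * g := by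
  classical
  ext m
  rw [coeff_cz, coeff_mul, coeff_mul]
  have key : ∀ x ∈ Finset.HasAntidiagonal.antidiagonal m,
      coeff x.1 (cz w (z - b) q) * coeff x.2 g =
        if ∑ i, (m i : ℤ) * w i = z then coeff x.1 q * coeff x.2 g else 0 := by
    intro x hx
    rw [Finset.HasAntidiagonal.mem_antidiagonal] at hx
    by_cases h2 : coeff x.2 g = 0
    · rw [h2]
      simp
    · have e2 := hg _ h2
      have e3 : ∑ i, (m i : ℤ) * w i = ∑ i, (x.1 i : ℤ) * w i + b := by
        rw [← e2, ← Finset.sum_add_distrib]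
        apply Finset.sum_congr rfl
        intro i _
        rw [← hx, Finsupp.add_apply]
        push_cast
        ring
      rw [coeff_cz]
      by_cases h4 : ∑ i, (x.1 i : ℤ) * w i = z - b
      · rw [if_pos h4, if_pos (by rw [e3, h4]; ring)]
      · rw [if_neg h4, if_neg (by intro h5; apply h4; rw [e3] at h5; linarith), zero_mul]
  rw [Finset.sum_congr rfl key]
  split_ifs with h0
  · rfl
  · simp

theorem cz_mul' {w : σ → ℤ} (z : ℤ) {b : ℤ} (q : MvPolynomial σ ℂ) {g : MvPolynomial σ ℂ}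
    (hg : HZ w g b) : cz w z (g * q) = g * cz w (z - b) q := by
  rw [mul_comm, cz_mul z q hg, mul_comm]

theorem HZ_monomial (w : σ → ℤ) (m : σ →₀ ℕ) (a : ℂ) :
    HZ w (monomial m a) (∑ i, (m i : ℤ) * w i) := by
  classical
  intro u hu
  rw [coeff_monomial] at hu
  have : m = u := by
    by_contra h
    rw [if_neg h] at hu
    exact hu rfl
  rw [this]

/-- Commutation of a graded linear map with components. -/
theorem cz_comm {τ : Type} [Fintype τ] {w : σ → ℤ} {w' : τ → ℤ}
    (φ : MvPolynomial σ ℂ →ₗ[ℂ] MvPolynomial τ ℂ)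
    (hφ : ∀ (m : σ →₀ ℕ) (a : ℂ), HZ w' (φ (monomial m a)) (∑ i, (m i : ℤ) * w i)) (z : ℤ)
    (h : MvPolynomial σ ℂ) : cz w' z (φ h) = φ (cz w z h) := by
  induction h using MvPolynomial.induction_on' with
  | monomial m a =>
    by_cases h0 : ∑ i, (m i : ℤ) * w i = z
    · rw [cz_of_HZ (h0 ▸ hφ m a), cz_of_HZ (h0 ▸ HZ_monomial w m a)]
    · rw [cz_of_HZ_ne (hφ m a) h0, cz_of_HZ_ne (HZ_monomial w m a) h0, map_zero]
  | add p q hp hq => rw [map_add, map_add, hp, hq, map_add, map_add]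

/-- An element all of whose components vanish is zero. -/
theorem eq_zero_of_cz {w : σ → ℤ} {h : MvPolynomial σ ℂ} (hh : ∀ z, cz w z h = 0) : h = 0 := by
  ext m
  have := congrArg (coeff m) (hh (∑ i, (m i : ℤ) * w i))
  rwa [coeff_cz, if_pos rfl] at this

/-- Induction over components. -/
theorem mem_of_cz {w : σ → ℤ} (S : Submodule ℂ (MvPolynomial σ ℂ)) (h : MvPolynomial σ ℂ)
    (hh : ∀ z, cz w z h ∈ S) : h ∈ S := by
  classical
  have h1 : h = ∑ z ∈ (h.support.image fun m : σ →₀ ℕ => ∑ i, (m i : ℤ) * w i), cz w z h := by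
    ext m
    rw [coeff_sum]
    by_cases hm : coeff m h = 0
    · rw [hm]
      symm
      apply Finset.sum_eq_zero
      intro z _
      rw [coeff_cz, hm, ite_self]
    · rw [Finset.sum_eq_single (∑ i, (m i : ℤ) * w i)]
      · rw [coeff_cz, if_pos rfl]
      · intro z _ hz
        rw [coeff_cz, if_neg (Ne.symm hz)]
      · intro h2
        exfalso
        apply h2
        rw [Finset.mem_image]
        exact ⟨m, by rwa [mem_support_iff], rfl⟩
  rw [h1]
  exact Submodule.sum_mem _ fun z _ => hh z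

end grading

section std

variable {n : ℕ}

/-- The standard grading. -/
abbrev o (n : ℕ) : Fin n → ℤ := fun _ => 1

theorem HZ_iff (h : MvPolynomial (Fin n) ℂ) (e : ℕ) : HZ (o n) h e ↔ h.IsHomogeneous e := by
  have key : ∀ m : Fin n →₀ ℕ, ∑ i, (m i : ℤ) * o n i = ((m.degree : ℕ) : ℤ) := by
    intro m
    rw [Finsupp.degree_eq_sum]
    push_cast
    simp [o]
  constructor
  · intro hh m hm
    have := hh m hm
    rw [key] at this
    have h2 : m.degree = e := by exact_mod_cast this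
    rw [← h2, Finsupp.degree_eq_weight_one]
    rfl
  · intro hh m hm
    have := hh hm
    rw [key]
    rw [← this, Finsupp.degree_eq_weight_one]
    rfl

theorem HZ_C {h : MvPolynomial (Fin n) ℂ} (hh : HZ (o n) h 0) : ∃ c, h = C c := by
  have h1 : h.IsHomogeneous 0 := (HZ_iff h 0).1 (by exact_mod_cast hh)
  exact ⟨coeff 0 h, (totalDegree_eq_zero_iff_eq_C).1 ((totalDegree_zero_iff_isHomogeneous _).2 h1)⟩

end std

section action

variable {n : ℕ}

theorem act_X (g : Gl n) (i : Fin n) : act g (X i) = ∑ j, C ((g⁻¹).val i j) * X j := by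
  unfold act
  rw [aeval_X]

theorem act_one (h : MvPolynomial (Fin n) ℂ) : act (1 : Gl n) h = h := by
  have : act (1 : Gl n) = AlgHom.id ℂ _ := by
    apply MvPolynomial.algHom_ext
    intro i
    rw [act_X, inv_one, AlgHom.id_apply, Finset.sum_eq_single i]
    · rw [Units.val_one, Matrix.one_apply_eq, map_one, one_mul]
    · intro j _ hj
      rw [Units.val_one, Matrix.one_apply_ne (Ne.symm hj), map_zero, zero_mul]
    · intro h
      exact absurd (Finset.mem_univ i) h
  rw [this, AlgHom.id_apply]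

theorem act_mul (g g' : Gl n) (h : MvPolynomial (Fin n) ℂ) :
    act (g * g') h = act g (act g' h) := by
  have : act (g * g') = (act g).comp (act g') := by
    apply MvPolynomial.algHom_ext
    intro i
    rw [act_X, AlgHom.comp_apply, act_X, map_sum]
    simp_rw [map_mul, act_X, mul_inv_rev, Units.val_mul, Matrix.mul_apply, map_sum, Finset.mul_sum,
      Finset.sum_mul]
    rw [Finset.sum_comm]
    apply Finset.sum_congr rfl
    intro j _
    apply Finset.sum_congr rfl
    intro l _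
    have : act g (C ((g'⁻¹).val i j)) = C ((g'⁻¹).val i j) := by
      have := (act g).commutes ((g'⁻¹).val i j)
      exact this
    rw [this, map_mul]
    ring
  rw [this, AlgHom.comp_apply]

theorem act_C (g : Gl n) (c : ℂ) : act g (C c) = C c := (act g).commutes c

theorem HZ_act_X (g : Gl n) (i : Fin n) : HZ (o n) (act g (X i)) 1 := by
  rw [act_X]
  apply HZ.sum
  intro j _
  have := (HZ.C (o n) ((g⁻¹).val i j)).mul (HZ.X (o n) j)
  simpa [o] using this

theorem HZ_aeval_monomial {k : ℕ} {w : Fin k → ℤ} (f : Fin k → MvPolynomial (Fin n) ℂ)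
    (hf : ∀ i, HZ (o n) (f i) (w i)) (m : Fin k →₀ ℕ) (a : ℂ) :
    HZ (o n) (aeval f (monomial m a)) (∑ i, (m i : ℤ) * w i) := by
  rw [aeval_monomial, Finsupp.prod_fintype _ _ (by intro i; rw [pow_zero])]
  have h1 := HZ.prod (w := o n) Finset.univ (h := fun i => f i ^ m i)
    (z := fun i => (m i : ℤ) * w i) (fun i _ => (hf i).pow (m i))
  have h2 := (HZ.C (o n) a).mul h1
  rw [zero_add] at h2
  exact h2

theorem cz_aeval {k : ℕ} {w : Fin k → ℤ} (f : Fin k → MvPolynomial (Fin n) ℂ)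
    (hf : ∀ i, HZ (o n) (f i) (w i)) (z : ℤ) (P : MvPolynomial (Fin k) ℂ) :
    cz (o n) z (aeval f P) = aeval f (cz w z P) :=
  cz_comm (aeval f).toLinearMap (HZ_aeval_monomial f hf) z P

theorem HZ_aeval {k : ℕ} {w : Fin k → ℤ} (f : Fin k → MvPolynomial (Fin n) ℂ)
    (hf : ∀ i, HZ (o n) (f i) (w i)) {z : ℤ} {P : MvPolynomial (Fin k) ℂ} (hP : HZ w P z) :
    HZ (o n) (aeval f P) z := by
  have := cz_HZ (o n) z (aeval f P)
  rwa [cz_aeval f hf, cz_of_HZ hP] at this

theorem cz_act (g : Gl n) (z : ℤ) (h : MvPolynomial (Fin n) ℂ) :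
    cz (o n) z (act g h) = act g (cz (o n) z h) :=
  cz_aeval (w := o n) _ (fun i => by
    have := HZ_act_X g i
    rw [act_X] at this
    exact this) z h

theorem HZ_act (g : Gl n) {z : ℤ} {h : MvPolynomial (Fin n) ℂ} (hh : HZ (o n) h z) :
    HZ (o n) (act g h) z := by
  have := cz_HZ (o n) z (act g h)
  rwa [cz_act, cz_of_HZ hh] at this

variable {W : Type} [Group W] [Fintype W] (D : Rd n W)

theorem inv_cz {h : MvPolynomial (Fin n) ℂ} (hh : IsInv D h) (z : ℤ) :
    IsInv D (cz (o n) z h) := by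
  intro w
  rw [← cz_act, hh w]

theorem inv_add {h k : MvPolynomial (Fin n) ℂ} (hh : IsInv D h) (hk : IsInv D k) :
    IsInv D (h + k) := by
  intro w
  rw [map_add, hh w, hk w]

theorem inv_sub {h k : MvPolynomial (Fin n) ℂ} (hh : IsInv D h) (hk : IsInv D k) :
    IsInv D (h - k) := by
  intro w
  rw [map_sub, hh w, hk w]

theorem inv_mul {h k : MvPolynomial (Fin n) ℂ} (hh : IsInv D h) (hk : IsInv D k) :
    IsInv D (h * k) := by
  intro w
  rw [map_mul, hh w, hk w]

theorem inv_smul {h : MvPolynomial (Fin n) ℂ} (c : ℂ) (hh : IsInv D h) :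
    IsInv D (c • h) := by
  intro w
  rw [map_smul, hh w]

theorem inv_C (c : ℂ) : IsInv D (C c) := by
  intro w
  exact act_C _ c

theorem inv_zero : IsInv D 0 := by
  intro w
  rw [map_zero]

theorem inv_sum {ι : Type} (s : Finset ι) {h : ι → MvPolynomial (Fin n) ℂ}
    (hh : ∀ i ∈ s, IsInv D (h i)) : IsInv D (∑ i ∈ s, h i) := by
  intro w
  rw [map_sum]
  exact Finset.sum_congr rfl fun i hi => hh i hi w

/-- The averaging operator. -/
noncomputable def av : MvPolynomial (Fin n) ℂ →ₗ[ℂ] MvPolynomial (Fin n) ℂ :=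
  ((Fintype.card W : ℂ)⁻¹) • ∑ w : W, (act (D.ρ w)).toLinearMap

theorem av_apply (h : MvPolynomial (Fin n) ℂ) :
    av D h = ((Fintype.card W : ℂ)⁻¹) • ∑ w : W, act (D.ρ w) h := by
  unfold av
  rw [LinearMap.smul_apply, LinearMap.sum_apply]
  rfl

theorem av_inv (h : MvPolynomial (Fin n) ℂ) : IsInv D (av D h) := by
  intro u
  rw [av_apply, map_smul, map_sum]
  refine congrArg _ ?_
  refine Fintype.sum_equiv (Equiv.mulLeft u) _ (fun w => act (D.ρ w) h) ?_
  intro w
  rw [← act_mul, ← map_mul]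
  rfl

theorem av_mul {r : MvPolynomial (Fin n) ℂ} (hr : IsInv D r) (h : MvPolynomial (Fin n) ℂ) :
    av D (r * h) = r * av D h := by
  rw [av_apply, av_apply, mul_smul_comm, Finset.mul_sum]
  refine congrArg _ ?_
  apply Finset.sum_congr rfl
  intro w _
  rw [map_mul, hr w]

theorem av_mul' {r : MvPolynomial (Fin n) ℂ} (hr : IsInv D r) (h : MvPolynomial (Fin n) ℂ) :
    av D (h * r) = av D h * r := by
  rw [mul_comm, av_mul D hr, mul_comm]

theorem av_of_inv {r : MvPolynomial (Fin n) ℂ} (hr : IsInv D r) : av D r = r := by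
  rw [av_apply, Finset.sum_congr rfl (fun w _ => hr w), Finset.sum_const, Finset.card_univ,
    ← Nat.cast_smul_eq_nsmul ℂ, smul_smul, inv_mul_cancel₀, one_smul]
  exact Nat.cast_ne_zero.2 Fintype.card_ne_zero

theorem av_HZ {z : ℤ} {h : MvPolynomial (Fin n) ℂ} (hh : HZ (o n) h z) :
    HZ (o n) (av D h) z := by
  rw [av_apply]
  exact HZ.smul _ (HZ.sum _ fun w _ => HZ_act _ hh)

/-- Homogeneous invariants of nonzero degree are in the Hilbert ideal. -/
theorem mem_hilb {h : MvPolynomial (Fin n) ℂ} {z : ℤ} (hi : IsInv D h) (hh : HZ (o n) h z)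
    (hz : z ≠ 0) : h ∈ hilb D := by
  by_cases h0 : z < 0
  · rw [hh.eq_zero (by intro i; simp [o]) h0]
    exact Ideal.zero_mem _
  · apply Ideal.subset_span
    refine ⟨hi, z.toNat, by omega, ?_⟩
    rw [← HZ_iff]
    rwa [show ((z.toNat : ℕ) : ℤ) = z by omega]

theorem exists_C_sub_mem {h : MvPolynomial (Fin n) ℂ} {z : ℤ} (hi : IsInv D h)
    (hh : HZ (o n) h z) : ∃ b, h - C b ∈ hilb D := by
  by_cases h0 : z = 0
  · subst h0
    obtain ⟨c, hc⟩ := HZ_C hh
    exact ⟨c, by rw [hc, sub_self]; exact Ideal.zero_mem _⟩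
  · exact ⟨0, by rw [map_zero, sub_zero]; exact mem_hilb D hi hh h0⟩

theorem act_mem_hilb (w : W) {h : MvPolynomial (Fin n) ℂ} (hh : h ∈ hilb D) :
    act (D.ρ w) h ∈ hilb D := by
  unfold hilb at hh
  induction hh using Submodule.span_induction with
  | mem x hx =>
    rw [hx.1 w]
    exact Ideal.subset_span hx
  | zero =>
    rw [map_zero]
    exact Ideal.zero_mem _
  | add x y _ _ h1 h2 =>
    rw [map_add]
    exact Ideal.add_mem _ h1 h2
  | smul a x _ h1 =>
    rw [smul_eq_mul, map_mul]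
    exact Ideal.mul_mem_left _ _ h1

end action

end Pool.Agent.V5helper7.CM
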