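import Pool.Agent.V5helper7.CM.Basic

/-!
# Project CM: job CST1 (Chevalley's lemma)
-/

namespace Pool.Agent.V5helper7.CM

open MvPolynomial Pool.Agent.V5helper32.CM

/-- A matrix of rank one is an outer product. -/
theorem rank_one_decomp {n : ℕ} (M : Matrix (Fin n) (Fin n) ℂ) (hM : M.rank = 1) :
    ∃ (a b : Fin n → ℂ), a ≠ 0 ∧ ∀ i j, M i j = b i * a j := by
  have h1 : Module.finrank ℂ (Submodule.span ℂ (Set.range M.row)) = 1 := by
    rw [← Matrix.rank_eq_finrank_span_row, hM]
  obtain ⟨a, ha0, ha⟩ := finrank_eq_one_iff'.1 h1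
  have h2 : ∀ i, ∃ c : ℂ, M.row i = c • (a : Fin n → ℂ) := by
    intro i
    obtain ⟨c, hc⟩ := ha ⟨M.row i, Submodule.subset_span ⟨i, rfl⟩⟩
    refine ⟨c, ?_⟩
    have := congrArg Subtype.val hc
    exact this.symm
  choose b hb using h2
  refine ⟨a, b, ?_, ?_⟩
  · intro h0
    exact ha0 (Subtype.ext h0)
  · intro i j
    have := congrFun (hb i) j
    exact this

theorem rank_inv_sub_one {n : ℕ} (g : Gl n) (h : (g.val - 1).rank = 1) :
    ((g⁻¹).val - 1).rank = 1 := by
  have h1 : (g⁻¹).val - 1 = (-(g⁻¹).val) * (g.val - 1) := by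
    have : (g⁻¹).val * g.val = 1 := by
      rw [← Units.val_mul, inv_mul_cancel, Units.val_one]
    rw [mul_sub, neg_mul, this, mul_one]
    abel
  rw [h1, Matrix.rank_mul_eq_right_of_isUnit_det, h]
  rw [Matrix.det_neg]
  have h3 : IsUnit (g⁻¹).val.det := by
    have := (Matrix.isUnit_iff_isUnit_det (g⁻¹).val).1 (g⁻¹).isUnit
    exact this
  exact (IsUnit.pow _ (by simp)).mul h3

/-- The linear form of a reflection. -/
theorem exists_form {n : ℕ} (g : Gl n) (h : (g.val - 1).rank = 1) :
    ∃ α : MvPolynomial (Fin n) ℂ, α ≠ 0 ∧ HZ (o n) α 1 ∧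
      ∀ p, ∃ q, act g p - p = α * q := by
  obtain ⟨a, b, ha, hab⟩ := rank_one_decomp _ (rank_inv_sub_one g h)
  refine ⟨∑ j, C (a j) * X j, ?_, ?_, ?_⟩
  · intro h0
    apply ha
    funext j
    have := congrArg (coeff (Finsupp.single j 1)) h0
    rw [coeff_sum, coeff_zero, Finset.sum_eq_single j] at this
    · rw [coeff_C_mul, coeff_X, if_pos rfl, mul_one] at this
      exact this
    · intro i _ hi
      rw [coeff_C_mul, coeff_X, if_neg, mul_zero]
      intro h1
      exact hi (Finsupp.single_left_injective one_ne_zero h1)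
    · intro h1
      exact absurd (Finset.mem_univ j) h1
  · apply HZ.sum
    intro j _
    have := (HZ.C (o n) (a j)).mul (HZ.X (o n) j)
    simpa [o] using this
  · intro p
    induction p using MvPolynomial.induction_on with
    | C c =>
      exact ⟨0, by rw [act_C, sub_self, mul_zero]⟩
    | add p q hp hq =>
      obtain ⟨p', hp'⟩ := hp
      obtain ⟨q', hq'⟩ := hq
      refine ⟨p' + q', ?_⟩
      rw [map_add, mul_add, ← hp', ← hq']
      ring
    | mul_X p i hp =>
      obtain ⟨p', hp'⟩ := hp
      have h1 : act g (X i) - X i = (∑ j, C (a j) * X j) * C (b i) := by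
        have h2 : act g (X i) - X i = ∑ j, C (((g⁻¹).val - 1) i j) * X j := by
          simp_rw [Matrix.sub_apply, map_sub, sub_mul]
          rw [Finset.sum_sub_distrib, act_X]
          congr 1
          rw [Finset.sum_eq_single i]
          · rw [Matrix.one_apply_eq, map_one, one_mul]
          · intro j _ hj
            rw [Matrix.one_apply_ne (Ne.symm hj), map_zero, zero_mul]
          · intro h
            exact absurd (Finset.mem_univ i) h
        rw [h2, Finset.sum_mul]
        apply Finset.sum_congr rfl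
        intro j _
        rw [hab, map_mul]
        ring
      refine ⟨act g p * C (b i) + p' * X i, ?_⟩
      have h3 : act g (p * X i) - p * X i =
          act g p * (act g (X i) - X i) + (act g p - p) * X i := by
        rw [map_mul]
        ring
      rw [h3, h1, hp']
      ring

section

variable {n : ℕ} {W : Type} [Group W] [Fintype W] (D : Rd n W)

theorem sub_mem_of_refl (p : MvPolynomial (Fin n) ℂ)
    (h : ∀ s, ((D.ρ s).val - 1).rank = 1 → act (D.ρ s) p - p ∈ hilb D) (w : W) :
    act (D.ρ w) p - p ∈ hilb D := by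
  have hw : w ∈ Subgroup.closure {s : W | ((D.ρ s).val - 1).rank = 1} := by
    rw [D.refl]
    exact Subgroup.mem_top w
  induction hw using Subgroup.closure_induction with
  | mem x hx => exact h x hx
  | one =>
    rw [map_one, act_one, sub_self]
    exact Ideal.zero_mem _
  | mul x y _ _ hx hy =>
    have : act (D.ρ (x * y)) p - p =
        act (D.ρ x) (act (D.ρ y) p - p) + (act (D.ρ x) p - p) := by
      rw [map_mul, act_mul, map_sub]
      ring
    rw [this]
    exact Ideal.add_mem _ (act_mem_hilb D x hy) hx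
  | inv x _ hx =>
    have : act (D.ρ x⁻¹) p - p = - act (D.ρ x⁻¹) (act (D.ρ x) p - p) := by
      rw [map_sub, ← act_mul, ← map_mul, inv_mul_cancel, map_one, act_one]
      ring
    rw [this]
    exact (Ideal.neg_mem_iff _).2 (act_mem_hilb D _ hx)

/-- Chevalley's lemma, for a finite set of indices. -/
theorem chevalley {ι : Type} [DecidableEq ι] (A : Finset ι) (i : ι) (hi : i ∈ A)
    (r : ι → MvPolynomial (Fin n) ℂ) (hr : ∀ j, IsInv D (r j))
    (h0 : ¬ ∃ q : ι → MvPolynomial (Fin n) ℂ, (∀ j, IsInv D (q j)) ∧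
      r i = ∑ j ∈ A.erase i, q j * r j) :
    ∀ (e : ℕ) (p : ι → MvPolynomial (Fin n) ℂ), HZ (o n) (p i) e →
      ∑ j ∈ A, r j * p j = 0 → p i ∈ hilb D := by
  intro e
  induction e with
  | zero =>
    intro p hp hs
    obtain ⟨c, hc⟩ := HZ_C (by exact_mod_cast hp)
    have h1 : ∑ j ∈ A, r j * av D (p j) = 0 := by
      have := congrArg (av D) hs
      rw [map_sum, map_zero] at this
      rw [← this]
      exact Finset.sum_congr rfl fun j _ => (av_mul D (hr j) _).symm
    rw [← Finset.add_sum_erase A _ hi, hc, av_of_inv D (inv_C D c)] at h1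
    by_cases hc0 : c = 0
    · rw [hc, hc0, map_zero]
      exact Ideal.zero_mem _
    · exfalso
      apply h0
      refine ⟨fun j => (-c⁻¹) • av D (p j), fun j => inv_smul D _ (av_inv D _), ?_⟩
      have h2 : r i * C c = - ∑ j ∈ A.erase i, r j * av D (p j) := by
        rw [eq_neg_iff_add_eq_zero]
        exact h1
      have h3 : r i = C (c⁻¹) * (r i * C c) := by
        rw [mul_comm (r i), ← mul_assoc, ← C_mul, inv_mul_cancel₀ hc0, map_one, one_mul]
      rw [h3, h2, mul_neg, Finset.mul_sum, ← Finset.sum_neg_distrib]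
      apply Finset.sum_congr rfl
      intro j _
      show _ = (-c⁻¹) • av D (p j) * r j
      rw [smul_eq_C_mul, map_neg]
      ring
  | succ e ih =>
    intro p hp hs
    have key : ∀ s, ((D.ρ s).val - 1).rank = 1 → act (D.ρ s) (p i) - p i ∈ hilb D := by
      intro s hrk
      obtain ⟨α, hα0, hα1, hα⟩ := exists_form (D.ρ s) hrk
      choose q hq using fun j => hα (p j)
      have h1 : ∑ j ∈ A, r j * act (D.ρ s) (p j) = 0 := by
        have := congrArg (act (D.ρ s)) hs
        rw [map_sum, map_zero] at this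
        rw [← this]
        refine Finset.sum_congr rfl fun j _ => ?_
        rw [map_mul, hr j s]
      have h2 : α * ∑ j ∈ A, r j * q j = 0 := by
        rw [Finset.mul_sum]
        calc ∑ j ∈ A, α * (r j * q j)
            = ∑ j ∈ A, (r j * act (D.ρ s) (p j) - r j * p j) := by
              refine Finset.sum_congr rfl fun j _ => ?_
              rw [← mul_sub, hq]
              ring
          _ = 0 := by rw [Finset.sum_sub_distrib, h1, hs, sub_zero]
      have h3 : ∑ j ∈ A, r j * q j = 0 := by
        rcases mul_eq_zero.1 h2 with h | h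
        · exact absurd h hα0
        · exact h
      have h4 : HZ (o n) (q i) e := by
        have h5 : HZ (o n) (α * q i) (e + 1 : ℕ) := by
          rw [← hq i]
          exact (HZ_act _ hp).sub hp
        have h6 := cz_mul' (w := o n) ((e + 1 : ℕ) : ℤ) (q i) hα1
        rw [cz_of_HZ h5] at h6
        have h7 := mul_left_cancel₀ hα0 h6
        rw [h7]
        have : (((e + 1 : ℕ) : ℤ) - 1) = e := by push_cast; ring
        rw [this]
        exact cz_HZ _ _ _
      rw [hq i]
      exact Ideal.mul_mem_left _ _ (ih q h4 h3)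
    have h8 := sub_mem_of_refl D (p i) key
    have h9 : av D (p i) - p i ∈ hilb D := by
      have : av D (p i) - p i = C ((Fintype.card W : ℂ)⁻¹) * ∑ w : W, (act (D.ρ w) (p i) - p i) := by
        rw [Finset.sum_sub_distrib, mul_sub, ← smul_eq_C_mul, ← smul_eq_C_mul, ← av_apply,
          Finset.sum_const, Finset.card_univ, ← Nat.cast_smul_eq_nsmul ℂ, smul_smul,
          inv_mul_cancel₀, one_smul]
        exact Nat.cast_ne_zero.2 Fintype.card_ne_zero
      rw [this]
      exact Ideal.mul_mem_left _ _ (Ideal.sum_mem _ fun w _ => h8 w)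
    have h10 : av D (p i) ∈ hilb D :=
      mem_hilb D (av_inv D _) (av_HZ D hp) (by push_cast; omega)
    have : p i = av D (p i) - (av D (p i) - p i) := by ring
    rw [this]
    exact Ideal.sub_mem _ h10 h9

end

theorem t_CST1 : S_CST1 := by
  intro n W _ _ D k r p hr h0 hp hs
  obtain ⟨e, he⟩ := hp
  refine chevalley D Finset.univ 0 (Finset.mem_univ _) r hr ?_ e p ((HZ_iff _ _).2 he) hs
  rintro ⟨q, hq, hq'⟩
  apply h0
  refine ⟨fun j => q j.succ, fun j => hq _, ?_⟩
  rw [hq']
  have h1 := Fin.sum_univ_succ fun j => q j * r j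
  have h2 := Finset.add_sum_erase Finset.univ (fun j => q j * r j) (Finset.mem_univ 0)
  rw [← h2] at h1
  exact add_left_cancel h1

end Pool.Agent.V5helper7.CM
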