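import Pool.Agent.V5helper32.CM.Stm3

/-!
# Project CM: job LEFT, auxiliary lemmas
-/

namespace Pool.Agent.V5helper7.CM

open MvPolynomial Pool.Agent.V5helper32.CM

/-- Transfer of the finiteness condition along a surjection. -/
theorem FG_transfer {Λ Λ' : Type} [Ring Λ] [Algebra ℂ Λ] [Ring Λ'] [Algebra ℂ Λ'] {M M' : Type}
    [AddCommGroup M] [Module ℂ M] [Module Λ M] [AddCommGroup M'] [Module ℂ M'] [Module Λ' M']
    (φ : M →ₗ[ℂ] M') (hφ : Function.Surjective φ) (xs : List Λ) (ys : List Λ')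
    (h : ∀ x ∈ xs, (∃ y ∈ ys, ∀ m, φ (x • m) = y • φ m) ∨ ∀ m, φ (x • m) = 0)
    (hF : FG xs M) : FG ys M' := by
  classical
  obtain ⟨s, hs⟩ := hF
  refine ⟨s.image φ, fun N hN hy => ?_⟩
  have h1 := hs (N.comap φ) (fun v hv => hN _ (Finset.mem_image_of_mem _ hv)) (by
    intro x hx m hm
    rw [Submodule.mem_comap] at hm ⊢
    rcases h x hx with ⟨y, hy1, hy2⟩ | h0
    · rw [hy2]
      exact hy y hy1 _ hm
    · rw [h0]
      exact N.zero_mem)
  rw [eq_top_iff]
  intro v _
  obtain ⟨m, rfl⟩ := hφ v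
  have : m ∈ N.comap φ := by
    rw [h1]
    exact Submodule.mem_top
  exact this

/-- A commutative algebra which is `FG` over the images of the variables is integral. -/
theorem integral_of_FG {r : ℕ} {B : Type} [CommRing B] [Algebra ℂ B]
    (a : MvPolynomial (Fin r) ℂ →ₐ[ℂ] B) (h : FG (List.ofFn fun k => a (X k)) B) (z : B) :
    ∃ f : Polynomial (MvPolynomial (Fin r) ℂ), f.Monic ∧ Polynomial.eval₂ a.toRingHom z f = 0 := by
  classical
  obtain ⟨s, hs⟩ := h
  let _ : Algebra (MvPolynomial (Fin r) ℂ) B := a.toRingHom.toAlgebra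
  have hsm : ∀ (q : MvPolynomial (Fin r) ℂ) (b : B), q • b = a q * b := fun q b => rfl
  have _ : IsScalarTower ℂ (MvPolynomial (Fin r) ℂ) B := by
    refine ⟨fun c q b => ?_⟩
    rw [hsm, hsm, map_smul, smul_mul_assoc]
  have h1 : (Submodule.span (MvPolynomial (Fin r) ℂ) (s : Set B)).restrictScalars ℂ = ⊤ := by
    apply hs
    · intro v hv
      exact Submodule.subset_span hv
    · intro x hx m hm
      rw [List.mem_ofFn] at hx
      obtain ⟨k, hk⟩ := hx
      rw [Submodule.restrictScalars_mem] at hm ⊢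
      have := Submodule.smul_mem _ (X k : MvPolynomial (Fin r) ℂ) hm
      rw [hsm] at this
      rw [← hk, smul_eq_mul]
      exact this
  have h2 : Module.Finite (MvPolynomial (Fin r) ℂ) B := by
    refine ⟨⟨s, ?_⟩⟩
    rw [eq_top_iff]
    intro v _
    have : v ∈ (Submodule.span (MvPolynomial (Fin r) ℂ) (s : Set B)).restrictScalars ℂ := by
      rw [h1]
      exact Submodule.mem_top
    exact this
  have h3 : IsIntegral (MvPolynomial (Fin r) ℂ) z := IsIntegral.of_finite _ z
  exact h3

/-- Elements of `Z` fixed by `τ` are central in the skew group algebra. -/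
theorem iota_central {Z : Type} [CommRing Z] [Algebra ℂ Z] {τ : Z ≃ₐ[ℂ] Z} {Λ : Type} [Ring Λ]
    [Algebra ℂ Λ] (s : Skew Z τ Λ) {z : Z} (hz : τ z = z) (l : Λ) : s.ι z * l = l * s.ι z := by
  obtain ⟨c, hc⟩ := s.gen l
  have h1 : ∀ k, s.ι z * s.t ^ k = s.t ^ k * s.ι z := by
    intro k
    induction k with
    | zero => rw [pow_zero, mul_one, one_mul]
    | succ k ih =>
      rw [pow_succ, ← mul_assoc, ih, mul_assoc, mul_assoc]
      congr 1
      rw [s.comm, hz]
  rw [hc, Finset.mul_sum, Finset.sum_mul]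
  apply Finset.sum_congr rfl
  intro k _
  rw [← mul_assoc, ← map_mul, mul_comm z, map_mul, mul_assoc, h1, mul_assoc]

/-- Scaling of a homogeneous polynomial. -/
theorem aeval_smul_X {n : ℕ} (s : ℂ) {f : MvPolynomial (Fin n) ℂ} {d : ℕ}
    (hf : f.IsHomogeneous d) :
    aeval (fun a => s • (X a : MvPolynomial (Fin n) ℂ)) f = s ^ d • f := by
  rw [aeval_def, eval₂_eq']
  conv_rhs => rw [f.as_sum, Finset.smul_sum]
  apply Finset.sum_congr rfl
  intro m hm
  have hm' : ∑ i, m i = d := by
    rw [← Finsupp.degree_eq_sum]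
    by_contra h1
    exact (mem_support_iff.1 hm) (hf.coeff_eq_zero h1)
  have h3 : ∏ i, (s • (X i : MvPolynomial (Fin n) ℂ)) ^ m i =
      s ^ d • ∏ i, (X i : MvPolynomial (Fin n) ℂ) ^ m i := by
    simp_rw [smul_pow]
    rw [Finset.prod_smul, Finset.prod_pow_eq_pow_sum, hm']
  rw [h3, mul_smul_comm, smul_monomial, monomial_eq,
    Finsupp.prod_fintype _ _ (by intro i; rw [pow_zero]), smul_eq_mul, C_mul, smul_eq_C_mul,
    algebraMap_eq]
  ring

/-- The dimension of the fixed space of the contragredient. -/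
theorem finrank_dual {n : ℕ} (t : Gl n) :
    Module.finrank ℂ (LinearMap.ker (Matrix.toLin' ((dualG t).val - 1))) =
      Module.finrank ℂ (LinearMap.ker (Matrix.toLin' (t.val - 1))) := by
  have h1 : ((dualG t).val - 1).rank = (t.val - 1).rank := by
    have e1 : (dualG t).val - 1 = ((t⁻¹).val - 1).transpose := by
      rw [Matrix.transpose_sub, Matrix.transpose_one]
      rfl
    have e2 : (t⁻¹).val - 1 = (-(t⁻¹).val) * (t.val - 1) := by
      have : (t⁻¹).val * t.val = 1 := by
        rw [← Units.val_mul, inv_mul_cancel, Units.val_one]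
      rw [mul_sub, neg_mul, this, mul_one]
      abel
    rw [e1, Matrix.rank_transpose, e2, Matrix.rank_mul_eq_right_of_isUnit_det]
    rw [Matrix.det_neg]
    have h3 : IsUnit (t⁻¹).val.det := by
      have := (Matrix.isUnit_iff_isUnit_det (t⁻¹).val).1 (t⁻¹).isUnit
      exact this
    exact (IsUnit.pow _ (by simp)).mul h3
  have key : ∀ M : Matrix (Fin n) (Fin n) ℂ,
      M.rank + Module.finrank ℂ (LinearMap.ker (Matrix.toLin' M)) = n := by
    intro M
    have := LinearMap.finrank_range_add_finrank_ker (Matrix.toLin' M)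
    rw [Module.finrank_fin_fun] at this
    rw [Matrix.rank, ← Matrix.toLin'_apply']
    exact this
  have k1 := key ((dualG t).val - 1)
  have k2 := key (t.val - 1)
  omega

end Pool.Agent.V5helper7.CM
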